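import Pool.Agent.R181.MajPieces

/-!
# Growth in blown-up Latin squares
-/

set_option autoImplicit false

namespace Pool.Agent.Helper42.BES

open Finset Pool.Agent.R181.Maj Pool.Agent.R181.LW

variable {A : Type*} {X : Fin 3 → Type*} [∀ i, DecidableEq (X i)]

/-- The structure of a tight class `D` of a family of triples (the coordinates of `x` are `f i x`),
where `μ` is generated by sharing two coordinates. -/
structure Blow (f : ∀ i, A → X i) (D : Finset A) (μ : Setoid A) (ρ : Fin 3 → Setoid A) : Prop where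
  mu : μ = Relation.EqvGen.setoid (Share f)
  mem : ∀ x ∈ D, ∀ y, μ x y → y ∈ D
  le_rho : ∀ i, μ ≤ ρ i
  ker : ∀ i, ∀ x ∈ D, ∀ y ∈ D, f i x = f i y → ρ i x y
  rho : ∀ i, ∀ x ∈ D, ∀ y, ρ i x y → ∃ w, f i x = f i w ∧ μ w y
  full : ∀ i j, i ≠ j → ∀ x ∈ D, ∀ y ∈ D, ∃ w ∈ D, f i x = f i w ∧ ρ j w y
  meet : ∀ i j, i ≠ j → ∀ x y, ρ i x y → ρ j x y → μ x y

variable {f : ∀ i, A → X i} {D : Finset A} {μ : Setoid A} {ρ : Fin 3 → Setoid A}

theorem spn3 [DecidableEq A] (f : ∀ i, A → X i) (T : Finset A) :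
    spn f T = #(T.image (f 0)) + #(T.image (f 1)) + #(T.image (f 2)) := by
  rw [spn, Fin.sum_univ_three]

/-- A tight class `C` spans at most `#C + 2` vertices. -/
theorem spn_class [Fintype A] [DecidableEq A] (hB : Blow f D μ ρ) (x : A) (C : Finset A)
    (hC : ∀ y, y ∈ C ↔ μ x y) : spn f C ≤ #C + 2 := by
  have h1 : 1 ≤ #C := card_pos.2 ⟨x, (hC x).2 (μ.refl x)⟩
  obtain ⟨T, hTC, hT, hT'⟩ := growth (by norm_num) f x C (fun y => by
    rw [hC, hB.mu]; rfl) (#C) h1 le_rfl
  rw [eq_of_subset_of_card_le hTC hT.ge] at hT'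
  omega

/-- `T` is closed: a triple of `D` with two vertices in `T` is in `T`. -/
def Closed (f : ∀ i, A → X i) (D T : Finset A) : Prop :=
  ∀ c ∈ D, ∀ i j, i ≠ j → f i c ∈ T.image (f i) → f j c ∈ T.image (f j) → c ∈ T

theorem closed_sat (hB : Blow f D μ ρ) {T : Finset A} (hT : Closed f D T) (hTD : T ⊆ D) {x y : A}
    (hx : x ∈ T) (h : μ x y) : y ∈ T := by
  classical
  have h2 : ∀ a b, Relation.EqvGen (Share f) a b → (a ∈ T ↔ b ∈ T) := by
    intro a b hab
    have hstep : ∀ a b, Share f a b → a ∈ T → b ∈ T := by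
      intro a b h ha
      have hbD : b ∈ D := hB.mem a (hTD ha) b (by rw [hB.mu]; exact Relation.EqvGen.rel _ _ h)
      obtain ⟨i, j, hij, hi, hj⟩ := h
      exact hT b hbD i j hij (hi ▸ mem_image_of_mem _ ha) (hj ▸ mem_image_of_mem _ ha)
    induction hab with
    | rel a b h =>
      refine ⟨hstep a b h, hstep b a ?_⟩
      obtain ⟨i, j, hij, hi, hj⟩ := h
      exact ⟨i, j, hij, hi.symm, hj.symm⟩
    | refl a => exact Iff.rfl
    | symm a b _ ih => exact ih.symm
    | trans a b c _ _ ih1 ih2 => exact ih1.trans ih2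
  rw [hB.mu] at h
  exact (h2 x y h).1 hx

theorem closed_image (hB : Blow f D μ ρ) {T : Finset A} (hT : Closed f D T) (hTD : T ⊆ D) {i : Fin 3}
    {x t : A} (hx : x ∈ D) (ht : t ∈ T) (h : ρ i x t) : f i x ∈ T.image (f i) := by
  obtain ⟨w, h1, h2⟩ := hB.rho i x hx t h
  rw [h1]
  exact mem_image_of_mem _ (closed_sat hB hT hTD ht (μ.symm h2))

theorem closed_mem (hB : Blow f D μ ρ) {T : Finset A} (hT : Closed f D T) (hTD : T ⊆ D)
    {i j : Fin 3} (hij : i ≠ j) {x t t' : A} (hx : x ∈ D) (ht : t ∈ T) (ht' : t' ∈ T)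
    (h : ρ i x t) (h' : ρ j x t') : x ∈ T :=
  hT x hx i j hij (closed_image hB hT hTD hx ht h) (closed_image hB hT hTD hx ht' h')

/-- A closed set spans at most `#T + 2` vertices. -/
theorem spn_closed [Fintype A] (hB : Blow f D μ ρ) {T : Finset A} (hT : Closed f D T) (hTD : T ⊆ D)
    (hne : T.Nonempty) : spn f T ≤ #T + 2 := by
  classical
  obtain ⟨e, he⟩ := hne
  set R : Finset A := T.filter fun x => ρ 0 x e with hR
  have hRT : R ⊆ T := filter_subset _ _
  have heR : e ∈ R := mem_filter.2 ⟨he, (ρ 0).refl e⟩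
  set g : A → Quotient (ρ 1) := fun x => Quotient.mk _ x with hg
  have hgeq : ∀ x y, g x = g y ↔ ρ 1 x y := fun x y => Quotient.eq
  set k := #(R.image g) with hk
  have hk1 : 1 ≤ k := card_pos.2 ⟨g e, mem_image_of_mem _ heR⟩
  -- the other coordinates of `T` occur in `R`
  have himg : ∀ j : Fin 3, j ≠ 0 → T.image (f j) ⊆ R.image (f j) := by
    intro j hj a ha
    obtain ⟨x, hx, rfl⟩ := mem_image.1 ha
    obtain ⟨w, hw, h1, h2⟩ := hB.full j 0 hj x (hTD hx) e (hTD he)
    have hwT : w ∈ T := closed_mem hB hT hTD hj hw hx he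
      (hB.ker j w hw x (hTD hx) h1.symm) h2
    rw [h1]
    exact mem_image_of_mem _ (mem_filter.2 ⟨hwT, h2⟩)
  -- the classes in `R`
  have hcls : ∀ c ∈ R.image g, #(R.image (f 0)) + #((R.filter fun x => g x = c).image (f 1)) +
      #((R.filter fun x => g x = c).image (f 2)) ≤ #(R.filter fun x => g x = c) + 2 := by
    intro c hc
    obtain ⟨x, hx, rfl⟩ := mem_image.1 hc
    have hxT := hRT hx
    have hC : ∀ y, y ∈ R.filter (fun y => g y = g x) ↔ μ x y := by
      intro y
      rw [mem_filter]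
      constructor
      · rintro ⟨h1, h2⟩
        rw [hgeq] at h2
        refine hB.meet 0 1 (by decide) x y ?_ ((ρ 1).symm h2)
        exact (ρ 0).trans (mem_filter.1 hx).2 ((ρ 0).symm (mem_filter.1 h1).2)
      · intro h
        refine ⟨mem_filter.2 ⟨closed_sat hB hT hTD hxT h, ?_⟩, ?_⟩
        · exact (ρ 0).trans ((ρ 0).symm (hB.le_rho 0 h)) (mem_filter.1 hx).2
        · rw [hgeq]
          exact (ρ 1).symm (hB.le_rho 1 h)
    have h1 := spn_class hB x _ hC
    rw [spn3] at h1
    have h2 : R.image (f 0) ⊆ (R.filter fun y => g y = g x).image (f 0) := by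
      intro a ha
      obtain ⟨y, hy, rfl⟩ := mem_image.1 ha
      have h3 : ρ 0 y x := (ρ 0).trans (mem_filter.1 hy).2 ((ρ 0).symm (mem_filter.1 hx).2)
      obtain ⟨w, h4, h5⟩ := hB.rho 0 y (hTD (hRT hy)) x h3
      rw [h4]
      exact mem_image_of_mem _ ((hC w).2 (μ.symm h5))
    have h3 := card_le_card h2
    omega
  have hsum : k * #(R.image (f 0)) + #(T.image (f 1)) + #(T.image (f 2)) ≤ #R + 2 * k := by
    have h1 := sum_le_sum hcls
    rw [sum_add_distrib, sum_add_distrib, sum_add_distrib, sum_const, sum_const, smul_eq_mul,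
      smul_eq_mul, ← card_eq_sum_card_image g R] at h1
    have h2 : ∀ j : Fin 3, j ≠ 0 → #(T.image (f j)) ≤
        ∑ c ∈ R.image g, #((R.filter fun x => g x = c).image (f j)) := by
      intro j hj
      refine (card_le_card (himg j hj)).trans ?_
      refine le_trans (card_le_card ?_) card_biUnion_le
      intro a ha
      obtain ⟨x, hx, rfl⟩ := mem_image.1 ha
      exact mem_biUnion.2 ⟨g x, mem_image_of_mem _ hx,
        mem_image_of_mem _ (mem_filter.2 ⟨hx, rfl⟩)⟩
    have h3 := h2 1 (by decide)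
    have h4 := h2 2 (by decide)
    have h5 : #(R.image g) = k := rfl
    rw [h5] at h1
    omega
  -- the triples outside `R`
  have hrest : k * #(T.image (f 0) \ R.image (f 0)) ≤ #(T \ R) := by
    have h1 : ∀ a ∈ T.image (f 0) \ R.image (f 0), k ≤ #((T \ R).filter fun x => f 0 x = a) := by
      intro a ha
      rw [mem_sdiff] at ha
      obtain ⟨x, hx, rfl⟩ := mem_image.1 ha.1
      have h2 : R.image g ⊆ ((T \ R).filter fun y => f 0 y = f 0 x).image g := by
        intro c hc
        obtain ⟨y, hy, rfl⟩ := mem_image.1 hc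
        obtain ⟨w, hw, h3, h4⟩ := hB.full 0 1 (by decide) x (hTD hx) y (hTD (hRT hy))
        have hwT : w ∈ T := closed_mem hB hT hTD (by decide : (0 : Fin 3) ≠ 1) hw hx (hRT hy)
          (hB.ker 0 w hw x (hTD hx) h3.symm) h4
        refine mem_image.2 ⟨w, mem_filter.2 ⟨mem_sdiff.2 ⟨hwT, fun hwR => ha.2 ?_⟩, h3.symm⟩,
          (hgeq w y).2 h4⟩
        rw [h3]
        exact mem_image_of_mem _ hwR
      exact (card_le_card h2).trans card_image_le
    have h2 : ∑ a ∈ T.image (f 0) \ R.image (f 0), #((T \ R).filter fun x => f 0 x = a) ≤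
        #(T \ R) := by
      rw [← card_biUnion]
      · exact card_le_card (biUnion_subset.2 fun a _ => filter_subset _ _)
      · intro a _ b _ hab
        show Disjoint _ _
        rw [Finset.disjoint_left]
        intro x hx hx'
        exact hab ((mem_filter.1 hx).2.symm.trans (mem_filter.1 hx').2)
    calc k * #(T.image (f 0) \ R.image (f 0)) = ∑ a ∈ T.image (f 0) \ R.image (f 0), k := by
          rw [sum_const, smul_eq_mul, mul_comm]
      _ ≤ _ := (sum_le_sum h1).trans h2
  -- if there are two classes in `R`, there are two rows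
  have htwo : 2 ≤ k → 2 ≤ #(T.image (f 0)) := by
    intro h2
    by_contra hcon
    have hall : ∀ x ∈ T, ∀ y ∈ T, f 0 x = f 0 y := by
      have h3 : #(T.image (f 0)) ≤ 1 := by omega
      rw [card_le_one] at h3
      exact fun x hx y hy => h3 _ (mem_image_of_mem _ hx) _ (mem_image_of_mem _ hy)
    obtain ⟨c, hc, c', hc', hne⟩ := one_lt_card.1 (by omega : 1 < #(R.image g))
    obtain ⟨x, hx, rfl⟩ := mem_image.1 hc
    obtain ⟨y, hy, rfl⟩ := mem_image.1 hc'
    apply hne
    rw [hgeq]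
    obtain ⟨w, hw, h4, h5⟩ := hB.full 1 2 (by decide) x (hTD (hRT hx)) y (hTD (hRT hy))
    have hwT : w ∈ T := closed_mem hB hT hTD (by decide : (1 : Fin 3) ≠ 2) hw (hRT hx) (hRT hy)
      (hB.ker 1 w hw x (hTD (hRT hx)) h4.symm) h5
    have h6 : μ x w := by
      rw [hB.mu]
      exact Relation.EqvGen.rel _ _ ⟨0, 1, by decide, hall x (hRT hx) w hwT, h4⟩
    have h7 : μ w y := hB.meet 0 2 (by decide) w y
      (hB.ker 0 w hw y (hTD (hRT hy)) (hall w hwT y (hRT hy))) h5
    exact hB.le_rho 1 (μ.trans h6 h7)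
  have hcard : #T = #R + #(T \ R) := by
    rw [card_sdiff_of_subset hRT]
    have := card_le_card hRT
    omega
  have himg0 : #(T.image (f 0) \ R.image (f 0)) = #(T.image (f 0)) - #(R.image (f 0)) :=
    card_sdiff_of_subset (image_subset_image hRT)
  have hle0 : #(R.image (f 0)) ≤ #(T.image (f 0)) := card_le_card (image_subset_image hRT)
  rw [himg0] at hrest
  rw [spn3]
  obtain ⟨d, hd⟩ : ∃ d, #(T.image (f 0)) = #(R.image (f 0)) + d := ⟨_, (Nat.add_sub_of_le hle0).symm⟩
  rw [hd, Nat.add_sub_cancel_left] at hrest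
  have h8 : k * #(T.image (f 0)) + #(T.image (f 1)) + #(T.image (f 2)) ≤ #T + 2 * k := by
    rw [hd, mul_add, hcard]
    omega
  rcases Nat.lt_or_ge k 2 with hk2 | hk2
  · have : k = 1 := by omega
    rw [this] at h8
    omega
  · have h9 := htwo hk2
    obtain ⟨k', hk'⟩ : ∃ k', k = k' + 2 := ⟨k - 2, by omega⟩
    obtain ⟨d', hd'⟩ : ∃ d', #(T.image (f 0)) = d' + 2 := ⟨#(T.image (f 0)) - 2, by omega⟩
    rw [hk', hd'] at h8
    rw [hd']
    nlinarith

/-- **Growth.** All numbers `e` of triples of `D` can be found on `e + 3` vertices. -/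
theorem grow [Fintype A] [DecidableEq A] (hB : Blow f D μ ρ) (e : ℕ) (he : 1 ≤ e) :
    e ≤ #D → ∃ T ⊆ D, #T = e ∧ spn f T ≤ e + 3 := by
  classical
  induction e, he using Nat.le_induction with
  | base =>
    intro h
    obtain ⟨x, hx⟩ := card_pos.1 (by omega : 0 < #D)
    refine ⟨{x}, singleton_subset_iff.2 hx, card_singleton _, ?_⟩
    rw [spn3]
    simp
  | succ e he ih =>
    intro hle
    obtain ⟨T, hTD, hTe, hT⟩ := ih (by omega)
    -- adding one triple
    have hadd : ∀ c ∉ T, ∀ i₀ : Fin 3, f i₀ c ∈ T.image (f i₀) →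
        spn f (insert c T) ≤ spn f T + 2 ∧
        ((∃ j₀ ≠ i₀, f j₀ c ∈ T.image (f j₀)) → spn f (insert c T) ≤ spn f T + 1) := by
      intro c hc i₀ hi₀
      have h1 : ∀ i, #((insert c T).image (f i)) ≤ #(T.image (f i)) + 1 := by
        intro i
        rw [image_insert]
        exact card_insert_le _ _
      have h2 : ∀ i, f i c ∈ T.image (f i) → #((insert c T).image (f i)) = #(T.image (f i)) := by
        intro i hi
        rw [image_insert, insert_eq_of_mem hi]
      have e0 := h1 0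
      have e1 := h1 1
      have e2 := h1 2
      have e3 := h2 i₀ hi₀
      rw [spn3, spn3]
      constructor
      · fin_cases i₀ <;> simp only [Fin.zero_eta, Fin.mk_one, Fin.reduceFinMk] at e3 <;> omega
      · rintro ⟨j₀, hj₀, hj⟩
        have e4 := h2 j₀ hj
        fin_cases i₀ <;> fin_cases j₀ <;>
          simp only [Fin.zero_eta, Fin.mk_one, Fin.reduceFinMk] at e3 e4 <;>
          first
          | exact absurd rfl hj₀
          | omega
    by_cases hcl : Closed f D T
    · have h1 := spn_closed hB hcl hTD (card_pos.1 (by omega))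
      have h2 : ∃ c ∈ D, c ∉ T ∧ ∃ i : Fin 3, f i c ∈ T.image (f i) := by
        obtain ⟨t, ht⟩ := card_pos.1 (by omega : 0 < #T)
        obtain ⟨y, hy, hyT⟩ : ∃ y ∈ D, y ∉ T := by
          by_contra hcon
          push Not at hcon
          have := card_le_card (show D ⊆ T from hcon)
          omega
        obtain ⟨w, hw, h3, h4⟩ := hB.full 0 1 (by decide) t (hTD ht) y hy
        by_cases hwT : w ∈ T
        · exact ⟨y, hy, hyT, 1, closed_image hB hcl hTD hy hwT ((ρ 1).symm h4)⟩
        · exact ⟨w, hw, hwT, 0, h3 ▸ mem_image_of_mem _ ht⟩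
      obtain ⟨c, hcD, hcT, i, hi⟩ := h2
      refine ⟨insert c T, insert_subset_iff.2 ⟨hcD, hTD⟩, by rw [card_insert_of_notMem hcT, hTe], ?_⟩
      have h3 := (hadd c hcT i hi).1
      omega
    · rw [Closed] at hcl
      push Not at hcl
      obtain ⟨c, hcD, i, j, hij, hi, hj, hcT⟩ := hcl
      refine ⟨insert c T, insert_subset_iff.2 ⟨hcD, hTD⟩, by rw [card_insert_of_notMem hcT, hTe], ?_⟩
      have h3 := (hadd c hcT i hi).2 ⟨j, hij.symm, hj⟩
      omega

end Pool.Agent.Helper42.BES
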