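import Pool.Agent.Helper42.BES.Gumm
import Pool.Agent.Helper42.BES.Grow

/-!
# Bounds for relations closed under Gumm operations
-/

set_option autoImplicit false

universe u

namespace Pool.Agent.Helper42.BES

open Finset Pool.Agent.R181.Maj Pool.Agent.R181.LW

section Small

variable {A : Type*} [Fintype A] {X : Fin 3 → Type*} [∀ i, DecidableEq (X i)] {n : ℕ}
  {q : ℕ → A → A → A → A} {p : A → A → A → A}

/-- The kernel of a coordinate. -/
def kerCong (hG : IsGumm n q p) (f : ∀ i, A → X i)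
    (hker : ∀ i, SC n q p (Setoid.ker (f i))) (i : Fin 3) : GCong n q p hG :=
  ⟨Setoid.ker (f i), hker i⟩

/-- The classes of the upper median of the kernels of the coordinates are small. -/
theorem class_small (hG : IsGumm n q p) (f : ∀ i, A → X i)
    (hinj : ∀ x y, (∀ i, f i x = f i y) → x = y)
    (hker : ∀ i, SC n q p (Setoid.ker (f i))) (e : ℕ) (he : 1 ≤ e)
    (hs : ∀ T : Finset A, #T = e → e + 3 < spn f T) (D : Finset A) (x₀ : A)
    (hD : ∀ y, y ∈ D → (up (kerCong hG f hker 0) (kerCong hG f hker 1) (kerCong hG f hker 2)).1 x₀ y) :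
    #D ≤ e - 1 := by
  classical
  set θ := kerCong hG f hker with hθ
  set v := up (θ 0) (θ 1) (θ 2) with hv
  set u := lo (θ 0) (θ 1) (θ 2) with hu
  have hst := struct hG θ
  have hθf : ∀ i x y, (θ i).1 x y ↔ f i x = f i y := fun i x y => Iff.rfl
  -- `u` is generated by sharing two coordinates
  have hle : ∀ i j : Fin 3, i ≠ j → θ i ⊓ θ j ≤ u := by
    intro i j hij
    rw [hu, lo]
    fin_cases i <;> fin_cases j
    · exact absurd rfl hij
    · exact le_sup_of_le_left le_sup_left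
    · exact le_sup_right
    · exact le_sup_of_le_left (le_sup_of_le_left (inf_comm _ _).le)
    · exact absurd rfl hij
    · exact le_sup_of_le_left le_sup_right
    · exact le_sup_of_le_right (inf_comm _ _).le
    · exact le_sup_of_le_left (le_sup_of_le_right (inf_comm _ _).le)
    · exact absurd rfl hij
  have hu1 : u.1 = Relation.EqvGen.setoid (Share f) := by
    apply le_antisymm
    · have h1 : ∀ i j : Fin 3, i ≠ j → (θ i ⊓ θ j).1 ≤ Relation.EqvGen.setoid (Share f) :=
        fun i j hij x y hxy => Relation.EqvGen.rel _ _ ⟨i, j, hij, hxy.1, hxy.2⟩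
      rw [hu, lo, gcoe_sup, gcoe_sup]
      exact sup_le (sup_le (h1 0 1 (by decide)) (h1 1 2 (by decide))) (h1 0 2 (by decide))
    · intro x y hxy
      have hxy' : Relation.EqvGen (Share f) x y := hxy
      clear hxy
      induction hxy' with
      | rel a b h =>
        obtain ⟨i, j, hij, h1, h2⟩ := h
        exact hle i j hij ⟨h1, h2⟩
      | refl a => exact u.1.refl a
      | symm a b _ ih => exact u.1.symm ih
      | trans a b c _ _ ih1 ih2 => exact u.1.trans ih1 ih2
  set C : Finset A := univ.filter fun y => v.1 x₀ y with hC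
  have hmC : ∀ y, y ∈ C ↔ v.1 x₀ y := fun y => by simp [hC]
  have huv : u.1 ≤ v.1 := (hst.le_rho 0).trans (hst.rho_le 0)
  have hB : Blow f C u.1 (fun i => ((θ i ⊓ v) ⊔ u).1) := by
    refine ⟨hu1, ?_, hst.le_rho, ?_, ?_, ?_, hst.meet⟩
    · intro x hx y hxy
      rw [hmC] at *
      exact v.1.trans hx (huv hxy)
    · intro i x hx y hy hxy
      rw [hmC] at *
      exact hst.theta_le i x y hxy (v.1.trans (v.1.symm hx) hy)
    · intro i x hx y hxy
      exact hst.rho i x y hxy
    · intro i j hij x hx y hy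
      rw [hmC] at *
      obtain ⟨w, h1, h2, h3⟩ := hst.full i j hij x y (v.1.trans (v.1.symm hx) hy)
      exact ⟨w, (hmC w).2 (v.1.trans hx h2), h1, h3⟩
  have hDC : D ⊆ C := fun y hy => (hmC y).2 (hD y hy)
  refine (card_le_card hDC).trans ?_
  by_contra hcon
  push Not at hcon
  obtain ⟨T, -, hTe, hT⟩ := grow hB e he (by omega)
  exact absurd hT (not_le_of_gt (hs T hTe))

end Small

section Main

variable {X : Fin 3 → Type u} [∀ i, DecidableEq (X i)]

/-- `H` is closed under the operation `m i`, applied componentwise. -/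
def OpClosed (m : ∀ i, X i → X i → X i → X i) (H : Finset (∀ i, X i)) : Prop :=
  ∀ x ∈ H, ∀ y ∈ H, ∀ z ∈ H, (fun i => m i (x i) (y i) (z i)) ∈ H

variable {n : ℕ} {q : ℕ → ∀ i, X i → X i → X i → X i} {p : ∀ i, X i → X i → X i → X i}
  {H : Finset (∀ i, X i)}

/-- The operation on `H`. -/
def opOn {m : ∀ i, X i → X i → X i → X i} (hm : OpClosed m H) :
    {x // x ∈ H} → {x // x ∈ H} → {x // x ∈ H} → {x // x ∈ H} :=
  fun x y z => ⟨fun i => m i (x.1 i) (y.1 i) (z.1 i), hm _ x.2 _ y.2 _ z.2⟩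

open Classical in
/-- The operations on `H`, with junk values for large indices. -/
noncomputable def qOn (hq : ∀ k ≤ n, OpClosed (q k) H) (k : ℕ) :
    {x // x ∈ H} → {x // x ∈ H} → {x // x ∈ H} → {x // x ∈ H} :=
  if h : k ≤ n then opOn (hq k h) else fun x _ _ => x

theorem isGumm_on (hG : ∀ i, IsGumm n (fun k => q k i) (p i)) (hq : ∀ k ≤ n, OpClosed (q k) H)
    (hp : OpClosed p H) : IsGumm n (qOn hq) (opOn hp) := by
  have h0 : ∀ k (hk : k ≤ n), qOn hq k = opOn (hq k hk) := fun k hk => by rw [qOn, dif_pos hk]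
  refine ⟨?_, ?_, ?_, ?_, ?_, ?_⟩
  · intro a b c
    rw [h0 0 (Nat.zero_le _)]
    exact Subtype.ext (funext fun i => (hG i).first _ _ _)
  · intro k hk a b
    rw [h0 k hk]
    exact Subtype.ext (funext fun i => (hG i).idem k hk _ _)
  · intro k hk he a b
    rw [h0 k hk.le, h0 (k + 1) hk]
    exact Subtype.ext (funext fun i => (hG i).even k hk he _ _)
  · intro k hk he a b
    rw [h0 k hk.le, h0 (k + 1) hk]
    exact Subtype.ext (funext fun i => (hG i).odd k hk he _ _)
  · intro a b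
    rw [h0 n le_rfl]
    exact Subtype.ext (funext fun i => (hG i).last _ _)
  · intro a b
    exact Subtype.ext (funext fun i => (hG i).maltsev _ _)

theorem ker_on {m : ∀ i, X i → X i → X i → X i} (hm : OpClosed m H) (i : Fin 3) :
    Compat (opOn hm) (Setoid.ker fun x : {x // x ∈ H} => x.1 i) := by
  intro a a' b b' c c' h1 h2 h3
  have e1 : a.1 i = a'.1 i := h1
  have e2 : b.1 i = b'.1 i := h2
  have e3 : c.1 i = c'.1 i := h3
  show m i (a.1 i) (b.1 i) (c.1 i) = m i (a'.1 i) (b'.1 i) (c'.1 i)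
  rw [e1, e2, e3]

theorem kerSC (hq : ∀ k ≤ n, OpClosed (q k) H) (hp : OpClosed p H) (i : Fin 3) :
    SC n (qOn hq) (opOn hp) (Setoid.ker fun x : {x // x ∈ H} => x.1 i) := by
  refine ⟨fun k hk => ?_, ker_on hp i⟩
  rw [qOn, dif_pos hk]
  exact ker_on (hq k hk) i

theorem spn_on {e : ℕ} (hs : ∀ T ⊆ H, #T = e → e + 3 < ∑ i, #(T.image fun x => x i))
    (T : Finset {x // x ∈ H}) (hT : #T = e) : e + 3 < spn (fun i (x : {x // x ∈ H}) => x.1 i) T := by
  classical
  have h1 := hs (T.map (Function.Embedding.subtype _)) (fun x hx => by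
    obtain ⟨y, -, rfl⟩ := mem_map.1 hx
    exact y.2) (by rw [card_map, hT])
  have h2 : ∀ i, (T.map (Function.Embedding.subtype _)).image (fun x : ∀ i, X i => x i) =
      T.image (fun x => x.1 i) := by
    intro i
    rw [map_eq_image, image_image]
    rfl
  simp only [h2] at h1
  exact h1

/-- **Main bound**. -/
theorem bound3 (hG : ∀ i, IsGumm n (fun k => q k i) (p i)) (hq : ∀ k ≤ n, OpClosed (q k) H)
    (hp : OpClosed p H) (e : ℕ) (he : 1 ≤ e)
    (hs : ∀ T ⊆ H, #T = e → e + 3 < ∑ i, #(T.image fun x => x i)) :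
    #H ^ 2 ≤ (e - 1) ^ 2 * ∏ i, #(H.image fun x => x i) := by
  classical
  rcases H.eq_empty_or_nonempty with rfl | hne
  · simp
  let f : ∀ i : Fin 3, {x // x ∈ H} → X i := fun i x => x.1 i
  have hGA := isGumm_on hG hq hp
  let θ := kerCong hGA f (kerSC hq hp)
  have hsm := class_small hGA f (fun x y h => Subtype.ext (funext h)) (kerSC hq hp) e he
    (spn_on hs)
  let ψ : Fin 3 → GCong n (qOn hq) (opOn hp) hGA :=
    ![θ 1 ⊔ θ 2, θ 0 ⊔ θ 2, θ 0 ⊔ θ 1]
  let Φ : {x // x ∈ H} → ∀ k, Quotient (ψ k).1 := fun x k => Quotient.mk _ x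
  have hΦ : ∀ x y k, Φ x k = Φ y k ↔ (ψ k).1 x y := fun x y k => Quotient.eq
  have h1 : #(univ : Finset {x // x ∈ H}) ≤ (e - 1) * #(univ.image Φ) := by
    refine card_le_mul_card_image_of_maps_to (f := Φ) (fun x hx => mem_image_of_mem _ hx) _ ?_
    intro b hb
    obtain ⟨x₀, -, rfl⟩ := mem_image.1 hb
    refine hsm _ x₀ ?_
    intro y hy
    rw [mem_filter] at hy
    have h2 : ∀ k, (ψ k).1 x₀ y := fun k => (ψ k).1.symm ((hΦ y x₀ k).1 (congrFun hy.2 k))
    exact ⟨⟨h2 2, h2 0⟩, h2 1⟩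
  have hneA : (univ.image Φ).Nonempty := by
    obtain ⟨x, hx⟩ := hne
    exact ⟨_, mem_image_of_mem Φ (mem_univ (⟨x, hx⟩ : {x // x ∈ H}))⟩
  have h2 := loomisWhitney 2 (fun k => Quotient (ψ k).1) (univ.image Φ) hneA
  have hθψ : ∀ i k : Fin 3, k ≠ i → θ i ≤ ψ k := by
    intro i k hki
    fin_cases i <;> fin_cases k
    · exact absurd rfl hki
    · exact (le_sup_left : θ 0 ≤ θ 0 ⊔ θ 2)
    · exact (le_sup_left : θ 0 ≤ θ 0 ⊔ θ 1)
    · exact (le_sup_left : θ 1 ≤ θ 1 ⊔ θ 2)
    · exact absurd rfl hki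
    · exact (le_sup_right : θ 1 ≤ θ 0 ⊔ θ 1)
    · exact (le_sup_right : θ 2 ≤ θ 1 ⊔ θ 2)
    · exact (le_sup_right : θ 2 ≤ θ 0 ⊔ θ 2)
    · exact absurd rfl hki
  have h3 : ∀ i : Fin 3, #((univ.image Φ).image fun x => i.removeNth x) ≤
      #(H.image fun x => x i) := by
    intro i
    rw [image_image]
    refine (card_image_le_of_factor (univ : Finset {x // x ∈ H}) (f i) _ ?_).trans ?_
    · intro x _ y _ hxy
      funext k
      show Φ x (i.succAbove k) = Φ y (i.succAbove k)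
      rw [hΦ]
      have h4 : θ i ≤ ψ (i.succAbove k) := hθψ _ _ (Fin.succAbove_ne i k)
      exact h4 hxy
    · refine card_le_card fun a ha => ?_
      obtain ⟨x, -, rfl⟩ := mem_image.1 ha
      exact mem_image_of_mem _ x.2
  have h5 : #H = #(univ : Finset {x // x ∈ H}) := by
    rw [card_univ, Fintype.card_coe]
  calc #H ^ 2 ≤ ((e - 1) * #(univ.image Φ)) ^ 2 := by
        rw [h5]; exact Nat.pow_le_pow_left h1 _
    _ = (e - 1) ^ 2 * #(univ.image Φ) ^ 2 := mul_pow _ _ _
    _ ≤ (e - 1) ^ 2 * ∏ i : Fin 3, #((univ.image Φ).image fun x => i.removeNth x) :=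
        Nat.mul_le_mul_left _ h2
    _ ≤ _ := Nat.mul_le_mul_left _ (prod_le_prod' fun i _ => h3 i)

end Main

end Pool.Agent.Helper42.BES
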