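import Pool.Agent.Helper42.BES.Bound

/-!
# Boxes in relations closed under Maltsev operations
-/

set_option autoImplicit false

universe u

namespace Pool.Agent.Helper42.BES

open Finset Pool.Agent.R181.Maj Pool.Agent.R181.LW

variable {A : Type*} {X : Fin 3 → Type*} [∀ i, DecidableEq (X i)]
  {q : ℕ → A → A → A → A} {p : A → A → A → A}

theorem maltsev_left (hM : IsGumm 0 q p) (a b : A) : p a b b = a := by
  rw [← hM.last, hM.first]

/-- A box of triples. -/
theorem box [DecidableEq A] (hM : IsGumm 0 q p) (f : ∀ i, A → X i)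
    (hker : ∀ i, SC 0 q p (Setoid.ker (f i)))
    (e : A) (g : Fin 3 → ℕ → A) (N : ℕ) (hg : ∀ i, ∀ k < N, f i (g i k) = f i e)
    (hd : ∀ i, ∀ k < N, ∀ l < N,
      (up (kerCong hM f hker 0) (kerCong hM f hker 1) (kerCong hM f hker 2)).1 (g i k) (g i l) →
        k = l)
    (s a b : ℕ) (ha : 0 < a) (hb : 0 < b) (haN : a ≤ N) (hbN : b ≤ N)
    (hcN : (s - 1) / (a * b) < N) :
    ∃ T : Finset A, #T = s ∧
      spn f T ≤ ((s - 1) / a + 1) + a * b + a * ((s - 1) / (a * b) + 1) := by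
  classical
  set θ := kerCong hM f hker with hθ
  set v := up (θ 0) (θ 1) (θ 2) with hv
  let w : ℕ → ℕ → A := fun i j => p (g 0 i) e (g 1 j)
  let E : ℕ → ℕ → ℕ → A := fun i j k => p (w i j) e (g 2 k)
  have hc : ∀ i (x x' y y' z z' : A), f i x = f i x' → f i y = f i y' → f i z = f i z' →
      f i (p x y z) = f i (p x' y' z') := fun i x x' y y' z z' h1 h2 h3 =>
    (hker i).2 _ _ _ _ _ _ h1 h2 h3
  have hw0 : ∀ i < N, ∀ j, f 0 (w i j) = f 0 (g 1 j) := by
    intro i hi j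
    have h := hc 0 (g 0 i) e e e (g 1 j) (g 1 j) (hg 0 i hi) rfl rfl
    rwa [hM.maltsev] at h
  have hw1 : ∀ i, ∀ j < N, f 1 (w i j) = f 1 (g 0 i) := by
    intro i j hj
    have h := hc 1 (g 0 i) (g 0 i) e e (g 1 j) e rfl rfl (hg 1 j hj)
    rwa [maltsev_left hM] at h
  have hE0 : ∀ i < N, ∀ j k, f 0 (E i j k) = f 0 (p (g 1 j) e (g 2 k)) := fun i hi j k =>
    hc 0 _ _ _ _ _ _ (hw0 i hi j) rfl rfl
  have hE1 : ∀ i, ∀ j < N, ∀ k, f 1 (E i j k) = f 1 (p (g 0 i) e (g 2 k)) := fun i j hj k =>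
    hc 1 _ _ _ _ _ _ (hw1 i j hj) rfl rfl
  have hE2 : ∀ i j, ∀ k < N, f 2 (E i j k) = f 2 (w i j) := by
    intro i j k hk
    have h := hc 2 (w i j) (w i j) e e (g 2 k) e rfl rfl (hg 2 k hk)
    rwa [maltsev_left hM] at h
  have hθf : ∀ i x y, (θ i).1 x y ↔ f i x = f i y := fun i x y => Iff.rfl
  have l01 : ∀ {x y : A}, f 0 x = f 0 y → (θ 0 ⊔ θ 1).1 x y := fun {x y} h =>
    (le_sup_left : θ 0 ≤ θ 0 ⊔ θ 1) h
  have l10 : ∀ {x y : A}, f 1 x = f 1 y → (θ 0 ⊔ θ 1).1 x y := fun {x y} h =>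
    (le_sup_right : θ 1 ≤ θ 0 ⊔ θ 1) h
  have l12 : ∀ {x y : A}, f 1 x = f 1 y → (θ 1 ⊔ θ 2).1 x y := fun {x y} h =>
    (le_sup_left : θ 1 ≤ θ 1 ⊔ θ 2) h
  have l21 : ∀ {x y : A}, f 2 x = f 2 y → (θ 1 ⊔ θ 2).1 x y := fun {x y} h =>
    (le_sup_right : θ 2 ≤ θ 1 ⊔ θ 2) h
  have l02 : ∀ {x y : A}, f 0 x = f 0 y → (θ 0 ⊔ θ 2).1 x y := fun {x y} h =>
    (le_sup_left : θ 0 ≤ θ 0 ⊔ θ 2) h
  have l20 : ∀ {x y : A}, f 2 x = f 2 y → (θ 0 ⊔ θ 2).1 x y := fun {x y} h =>
    (le_sup_right : θ 2 ≤ θ 0 ⊔ θ 2) h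
  have hEa : ∀ i < N, ∀ j < N, ∀ k < N, (θ 1 ⊔ θ 2).1 (g 0 i) (E i j k) := by
    intro i _ j hj k hk
    exact (θ 1 ⊔ θ 2).1.trans (l12 (hw1 i j hj).symm) (l21 (hE2 i j k hk).symm)
  have hEb : ∀ i < N, ∀ j < N, ∀ k < N, (θ 0 ⊔ θ 2).1 (g 1 j) (E i j k) := by
    intro i hi j _ k hk
    exact (θ 0 ⊔ θ 2).1.trans (l02 (hw0 i hi j).symm) (l20 (hE2 i j k hk).symm)
  have hEc : ∀ i < N, ∀ j < N, ∀ k < N, (θ 0 ⊔ θ 1).1 (g 2 k) (E i j k) := by
    intro i hi j hj k _
    have h1 : f 0 (p (g 0 i) e (g 2 k)) = f 0 (g 2 k) := by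
      have h := hc 0 (g 0 i) e e e (g 2 k) (g 2 k) (hg 0 i hi) rfl rfl
      rwa [hM.maltsev] at h
    exact (θ 0 ⊔ θ 1).1.trans (l01 h1.symm) (l10 (hE1 i j hj k).symm)
  have hinj : ∀ i < N, ∀ j < N, ∀ k < N, ∀ i' < N, ∀ j' < N, ∀ k' < N,
      E i j k = E i' j' k' → i = i' ∧ j = j' ∧ k = k' := by
    intro i hi j hj k hk i' hi' j' hj' k' hk' h
    refine ⟨hd 0 i hi i' hi' ?_, hd 1 j hj j' hj' ?_, hd 2 k hk k' hk' ?_⟩
    · have h1 : f 0 (g 0 i) = f 0 (g 0 i') := (hg 0 i hi).trans (hg 0 i' hi').symm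
      have h2 := hEa i hi j hj k hk
      rw [h] at h2
      exact ⟨⟨l01 h1, (θ 1 ⊔ θ 2).1.trans h2 ((θ 1 ⊔ θ 2).1.symm (hEa i' hi' j' hj' k' hk'))⟩, l02 h1⟩
    · have h1 : f 1 (g 1 j) = f 1 (g 1 j') := (hg 1 j hj).trans (hg 1 j' hj').symm
      have h2 := hEb i hi j hj k hk
      rw [h] at h2
      exact ⟨⟨l10 h1, l12 h1⟩, (θ 0 ⊔ θ 2).1.trans h2 ((θ 0 ⊔ θ 2).1.symm (hEb i' hi' j' hj' k' hk'))⟩
    · have h1 : f 2 (g 2 k) = f 2 (g 2 k') := (hg 2 k hk).trans (hg 2 k' hk').symm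
      have h2 := hEc i hi j hj k hk
      rw [h] at h2
      exact ⟨⟨(θ 0 ⊔ θ 1).1.trans h2 ((θ 0 ⊔ θ 1).1.symm (hEc i' hi' j' hj' k' hk')), l21 h1⟩, l20 h1⟩
  have hdiv : ∀ t < s, t / a ≤ (s - 1) / a := fun t ht => Nat.div_le_div_right (by omega)
  have hdiv2 : ∀ t < s, t / (a * b) ≤ (s - 1) / (a * b) := fun t ht =>
    Nat.div_le_div_right (by omega)
  have hb1 : ∀ t, t % a < N := fun t => (Nat.mod_lt t ha).trans_le haN
  have hb2 : ∀ t, t / a % b < N := fun t => (Nat.mod_lt _ hb).trans_le hbN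
  have hb3 : ∀ t < s, t / (a * b) < N := fun t ht => (hdiv2 t ht).trans_lt hcN
  let F : ℕ → A := fun t => E (t % a) (t / a % b) (t / (a * b))
  refine ⟨(range s).image F, ?_, ?_⟩
  · rw [card_image_of_injOn, card_range]
    intro t ht t' ht' h
    rw [mem_coe, mem_range] at ht ht'
    obtain ⟨h1, h2, h3⟩ := hinj _ (hb1 t) _ (hb2 t) _ (hb3 t ht) _ (hb1 t') _ (hb2 t') _
      (hb3 t' ht') h
    have h4 : t / a = t' / a := by
      rw [← Nat.div_div_eq_div_mul, ← Nat.div_div_eq_div_mul] at h3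
      rw [← Nat.div_add_mod (t / a) b, ← Nat.div_add_mod (t' / a) b, h2, h3]
    rw [← Nat.div_add_mod t a, ← Nat.div_add_mod t' a, h1, h4]
  · rw [spn3]
    have c0 : #(((range s).image F).image (f 0)) ≤ (s - 1) / a + 1 := by
      have h1 : ((range s).image F).image (f 0) ⊆
          (range ((s - 1) / a + 1)).image fun u => f 0 (p (g 1 (u % b)) e (g 2 (u / b))) := by
        rw [image_image]
        intro x hx
        obtain ⟨t, ht, rfl⟩ := mem_image.1 hx
        rw [mem_range] at ht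
        refine mem_image.2 ⟨t / a, mem_range.2 (Nat.lt_succ_of_le (hdiv t ht)), ?_⟩
        rw [Nat.div_div_eq_div_mul]
        exact (hE0 _ (hb1 t) _ _).symm
      exact (card_le_card h1).trans (card_image_le.trans (card_range _).le)
    have c1 : #(((range s).image F).image (f 1)) ≤ a * ((s - 1) / (a * b) + 1) := by
      have h1 : ((range s).image F).image (f 1) ⊆
          (range a ×ˢ range ((s - 1) / (a * b) + 1)).image
            fun u => f 1 (p (g 0 u.1) e (g 2 u.2)) := by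
        rw [image_image]
        intro x hx
        obtain ⟨t, ht, rfl⟩ := mem_image.1 hx
        rw [mem_range] at ht
        exact mem_image.2 ⟨(t % a, t / (a * b)), mem_product.2 ⟨mem_range.2 (Nat.mod_lt t ha),
          mem_range.2 (Nat.lt_succ_of_le (hdiv2 t ht))⟩, (hE1 _ _ (hb2 t) _).symm⟩
      refine (card_le_card h1).trans (card_image_le.trans ?_)
      rw [card_product, card_range, card_range]
    have c2 : #(((range s).image F).image (f 2)) ≤ a * b := by
      have h1 : ((range s).image F).image (f 2) ⊆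
          (range a ×ˢ range b).image fun u => f 2 (w u.1 u.2) := by
        rw [image_image]
        intro x hx
        obtain ⟨t, ht, rfl⟩ := mem_image.1 hx
        rw [mem_range] at ht
        exact mem_image.2 ⟨(t % a, t / a % b), mem_product.2 ⟨mem_range.2 (Nat.mod_lt t ha),
          mem_range.2 (Nat.mod_lt _ hb)⟩, (hE2 _ _ _ (hb3 t ht)).symm⟩
      refine (card_le_card h1).trans (card_image_le.trans ?_)
      rw [card_product, card_range, card_range]
    omega

/-- **Linear bound** for families closed under a Maltsev operation. -/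
theorem linear [Fintype A] (hM : IsGumm 0 q p) (f : ∀ i, A → X i)
    (hinj : ∀ x y, (∀ i, f i x = f i y) → x = y)
    (hker : ∀ i, SC 0 q p (Setoid.ker (f i))) (s a b N : ℕ) (hs1 : 1 ≤ s) (ha : 0 < a) (hb : 0 < b)
    (haN : a ≤ N) (hbN : b ≤ N) (hcN : (s - 1) / (a * b) < N)
    (hab : ((s - 1) / a + 1) + a * b + a * ((s - 1) / (a * b) + 1) ≤ s + 3)
    (hs : ∀ T : Finset A, #T = s → s + 3 < spn f T) :
    Fintype.card A ≤ (s - 1) * (N - 1) * ∑ i, #(univ.image (f i)) := by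
  classical
  set θ := kerCong hM f hker with hθ
  set v := up (θ 0) (θ 1) (θ 2) with hv
  have hN : 1 ≤ N := by omega
  have hsm := class_small hM f hinj hker s hs1 hs
  set d := (s - 1) * (N - 1) with hd
  have key : ∀ e : A, ∃ i, #(univ.filter fun x => f i x = f i e) ≤ d := by
    intro e
    by_contra hcon
    push Not at hcon
    have h1 : ∀ i, ∃ g : ℕ → A, (∀ k < N, f i (g k) = f i e) ∧
        ∀ k < N, ∀ l < N, v.1 (g k) (g l) → k = l := by
      intro i
      set φ : A → Quotient v.1 := fun x => Quotient.mk _ x with hφ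
      set Q := (univ.filter fun x => f i x = f i e).image φ with hQ
      have h2 : N ≤ #Q := by
        by_contra h3
        push Not at h3
        have h4 : #(univ.filter fun x => f i x = f i e) ≤ (s - 1) * #Q := by
          refine card_le_mul_card_image_of_maps_to (f := φ) (fun x hx => mem_image_of_mem _ hx) _ ?_
          intro c hc
          obtain ⟨x₀, -, rfl⟩ := mem_image.1 hc
          refine hsm _ x₀ ?_
          intro y hy
          rw [mem_filter] at hy
          have h5 : φ y = φ x₀ := hy.2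
          exact v.1.symm (Quotient.eq.1 h5)
        have h6 : (s - 1) * #Q ≤ (s - 1) * (N - 1) := Nat.mul_le_mul_left _ (by omega)
        have := hcon i
        omega
      have h3 : ∀ c : {c // c ∈ Q}, ∃ x, f i x = f i e ∧ φ x = c.1 := by
        rintro ⟨c, hc⟩
        obtain ⟨x, hx, rfl⟩ := mem_image.1 hc
        exact ⟨x, (mem_filter.1 hx).2, rfl⟩
      choose r hr1 hr2 using h3
      refine ⟨fun k => if h : k < #Q then r (Q.equivFin.symm ⟨k, h⟩) else e, ?_, ?_⟩
      · intro k hk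
        simp only [dif_pos (hk.trans_le h2)]
        exact hr1 _
      · intro k hk l hl h
        simp only [dif_pos (hk.trans_le h2), dif_pos (hl.trans_le h2)] at h
        have h4 : φ (r (Q.equivFin.symm ⟨k, hk.trans_le h2⟩)) =
            φ (r (Q.equivFin.symm ⟨l, hl.trans_le h2⟩)) := Quotient.eq.2 h
        rw [hr2, hr2] at h4
        have h5 := Q.equivFin.symm.injective (Subtype.ext h4)
        exact congrArg Fin.val h5
    choose g hg1 hg2 using h1
    obtain ⟨T, hT1, hT2⟩ := box hM f hker e g N hg1 hg2 s a b ha hb haN hbN hcN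
    have := hs T hT1
    omega
  have h1 : (univ : Finset A) ⊆ univ.biUnion fun i : Fin 3 =>
      univ.filter fun e => #(univ.filter fun x => f i x = f i e) ≤ d := by
    intro e _
    obtain ⟨i, hi⟩ := key e
    exact mem_biUnion.2 ⟨i, mem_univ _, mem_filter.2 ⟨mem_univ _, hi⟩⟩
  have h2 : ∀ i : Fin 3, #(univ.filter fun e => #(univ.filter fun x => f i x = f i e) ≤ d) ≤
      d * #(univ.image (f i)) := by
    intro i
    refine (card_le_mul_card_image_of_maps_to (f := f i)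
      (fun x _ => mem_image_of_mem _ (mem_univ x)) d ?_)
    intro c _
    by_cases hne : ((univ.filter fun e => #(univ.filter fun x => f i x = f i e) ≤ d).filter
      fun x => f i x = c).Nonempty
    · obtain ⟨e, he⟩ := hne
      rw [mem_filter, mem_filter] at he
      refine le_trans (card_le_card ?_) he.1.2
      intro x hx
      rw [mem_filter] at hx
      exact mem_filter.2 ⟨mem_univ _, hx.2.trans he.2.symm⟩
    · rw [not_nonempty_iff_eq_empty] at hne
      rw [hne, card_empty]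
      exact Nat.zero_le _
  calc Fintype.card A = #(univ : Finset A) := (card_univ).symm
    _ ≤ _ := card_le_card h1
    _ ≤ _ := card_biUnion_le
    _ ≤ ∑ i, d * #(univ.image (f i)) := sum_le_sum fun i _ => h2 i
    _ = _ := by rw [mul_sum]

end Pool.Agent.Helper42.BES
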