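import Pool.Agent.R181.MajPieces

/-!
# Congruences of algebras with Gumm operations
-/

set_option autoImplicit false

namespace Pool.Agent.Helper42.BES

open Pool.Agent.R181.Maj

variable {A : Type*}

/-- `q 0, …, q n, p` are Gumm operations: this is the condition of Gumm characterising congruence
modularity. For `n = 0` it says that `p` is a Maltsev operation, `p a b b = a` and `p a a b = b`. -/
structure IsGumm (n : ℕ) (q : ℕ → A → A → A → A) (p : A → A → A → A) : Prop where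
  /-- `q 0` is the first projection. -/
  first : ∀ a b c, q 0 a b c = a
  /-- All `q k` satisfy `q k a b a = a`. -/
  idem : ∀ k ≤ n, ∀ a b, q k a b a = a
  /-- Links of even index. -/
  even : ∀ k < n, Even k → ∀ a b, q k a b b = q (k + 1) a b b
  /-- Links of odd index. -/
  odd : ∀ k < n, ¬ Even k → ∀ a b, q k a a b = q (k + 1) a a b
  /-- The last link. -/
  last : ∀ a b, q n a b b = p a b b
  /-- The last operation. -/
  maltsev : ∀ a b, p a a b = b

/-- The relation `R` is compatible with the operation `m`. -/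
def RC (m : A → A → A → A) (R : A → A → Prop) : Prop :=
  ∀ a a' b b' c c', R a a' → R b b' → R c c' → R (m a b c) (m a' b' c')

/-- Compatible with all operations. -/
def AllC (n : ℕ) (q : ℕ → A → A → A → A) (p : A → A → A → A) (R : A → A → Prop) : Prop :=
  (∀ k ≤ n, RC (q k) R) ∧ RC p R

/-- The approximations of the join of `β` and `γ`. -/
def Lam (β γ : Setoid A) : ℕ → A → A → Prop
  | 0 => fun a b => β a b
  | k + 1 => fun a b => ∃ c d, Lam β γ k a c ∧ γ c d ∧ Lam β γ k d b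

variable {β γ : Setoid A}

theorem lam_refl (k : ℕ) (a : A) : Lam β γ k a a := by
  induction k with
  | zero => exact β.refl a
  | succ k ih => exact ⟨a, a, ih, γ.refl a, ih⟩

theorem lam_symm {k : ℕ} {a b : A} (h : Lam β γ k a b) : Lam β γ k b a := by
  induction k generalizing a b with
  | zero => exact β.symm h
  | succ k ih =>
    obtain ⟨c, d, h1, h2, h3⟩ := h
    exact ⟨d, c, ih h3, γ.symm h2, ih h1⟩

theorem lam_succ {k : ℕ} {a b : A} (h : Lam β γ k a b) : Lam β γ (k + 1) a b :=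
  ⟨b, b, h, γ.refl b, lam_refl k b⟩

theorem lam_mono {k l : ℕ} (hkl : k ≤ l) {a b : A} (h : Lam β γ k a b) : Lam β γ l a b := by
  induction l, hkl using Nat.le_induction with
  | base => exact h
  | succ l _ ih => exact lam_succ ih

theorem lam_rc {m : A → A → A → A} (hβ : RC m fun a b => β a b) (hγ : RC m fun a b => γ a b)
    (k : ℕ) : RC m (Lam β γ k) := by
  induction k with
  | zero => exact hβ
  | succ k ih =>
    rintro a a' b b' c c' ⟨x, y, h1, h2, h3⟩ ⟨x', y', h1', h2', h3'⟩ ⟨x'', y'', h1'', h2'', h3''⟩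
    exact ⟨m x x' x'', m y y' y'', ih _ _ _ _ _ _ h1 h1' h1'', hγ _ _ _ _ _ _ h2 h2' h2'',
      ih _ _ _ _ _ _ h3 h3' h3''⟩

theorem exists_lam {a b : A} (h : (β ⊔ γ) a b) : ∃ k, Lam β γ k a b := by
  let w : Setoid A :=
    { r := fun a b => ∃ k, Lam β γ k a b
      iseqv := by
        refine ⟨fun a => ⟨0, β.refl a⟩, ?_, ?_⟩
        · rintro a b ⟨k, hk⟩
          exact ⟨k, lam_symm hk⟩
        · rintro a b c ⟨k, hk⟩ ⟨l, hl⟩
          exact ⟨max k l + 1, b, b, lam_mono (le_max_left _ _) hk, γ.refl b,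
            lam_mono (le_max_right _ _) hl⟩ }
  have h1 : β ⊔ γ ≤ w := sup_le (fun {a b} h => ⟨0, h⟩)
    (fun {a b} h => ⟨1, a, b, β.refl a, h, β.refl b⟩)
  exact h1 h

/-- Congruences. -/
def SC (n : ℕ) (q : ℕ → A → A → A → A) (p : A → A → A → A) (s : Setoid A) : Prop :=
  (∀ k ≤ n, Compat (q k) s) ∧ Compat p s

variable {n : ℕ} {q : ℕ → A → A → A → A} {p : A → A → A → A}

theorem SC.inf {s t : Setoid A} (hs : SC n q p s) (ht : SC n q p t) : SC n q p (s ⊓ t) :=
  ⟨fun k hk => compat_inf (hs.1 k hk) (ht.1 k hk), compat_inf hs.2 ht.2⟩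

theorem SC.sup {s t : Setoid A} (hs : SC n q p s) (ht : SC n q p t) : SC n q p (s ⊔ t) :=
  ⟨fun k hk => compat_sup (hs.1 k hk) (ht.1 k hk), compat_sup hs.2 ht.2⟩

/-- A chain argument: if `q k a a b` and `q k a b b` are `η`-related for all `k`, then `a` and
`p a b b` are `η`-related. -/
theorem chain (hG : IsGumm n q p) (η : Setoid A) {a b : A}
    (h : ∀ k ≤ n, η (q k a a b) (q k a b b)) : η a (p a b b) := by
  have key : ∀ k ≤ n, η a (q k a b b) ∧ η a (q k a a b) := by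
    intro k
    induction k with
    | zero =>
      intro h0
      rw [hG.first, hG.first]
      exact ⟨η.refl a, η.refl a⟩
    | succ k ih =>
      intro hk
      obtain ⟨h1, h2⟩ := ih (by omega)
      have h3 := h (k + 1) hk
      by_cases he : Even k
      · rw [hG.even k (by omega) he] at h1
        exact ⟨h1, η.trans h1 (η.symm h3)⟩
      · rw [hG.odd k (by omega) he] at h2
        exact ⟨η.trans h2 h3, h2⟩
  have := (key n le_rfl).1
  rwa [hG.last] at this

/-- The modular law. -/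
theorem modular (hG : IsGumm n q p) {α β γ : Setoid A} (hα : SC n q p α) (hβ : SC n q p β)
    (hγ : SC n q p γ) (hle : γ ≤ α) : α ⊓ (β ⊔ γ) ≤ (α ⊓ β) ⊔ γ := by
  set η : Setoid A := (α ⊓ β) ⊔ γ with hη
  have hγη : ∀ {x y}, γ x y → η x y := fun {x y} h => (le_sup_right : γ ≤ η) h
  have key : ∀ k, ∀ a b, α a b → Lam β γ k a b → η a b := by
    intro k
    induction k with
    | zero =>
      intro a b h1 h2
      exact (le_sup_left : α ⊓ β ≤ η) ⟨h1, h2⟩
    | succ k ih =>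
      rintro a b hab ⟨c, d, h1, h2, h3⟩
      have h4 : η a (p a b b) := by
        refine chain hG η fun i hi => ?_
        have hα' : ∀ u, α (q i a u b) a := by
          intro u
          have e1 : α (q i a u b) (q i a u a) :=
            hα.1 i hi _ _ _ _ _ _ (α.refl _) (α.refl _) (α.symm hab)
          rwa [hG.idem i hi] at e1
        have hrc := lam_rc (k := k) (hβ.1 i hi) (hγ.1 i hi)
        have e1 : η (q i a a b) (q i a c b) := ih _ _ (α.trans (hα' _) (α.symm (hα' _)))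
          (hrc _ _ _ _ _ _ (lam_refl _ _) h1 (lam_refl _ _))
        have e2 : η (q i a c b) (q i a d b) := hγη
          (hγ.1 i hi _ _ _ _ _ _ (γ.refl _) h2 (γ.refl _))
        have e3 : η (q i a d b) (q i a b b) := ih _ _ (α.trans (hα' _) (α.symm (hα' _)))
          (hrc _ _ _ _ _ _ (lam_refl _ _) h3 (lam_refl _ _))
        exact η.trans e1 (η.trans e2 e3)
      have h5 : η (p a b b) (p c d b) := by
        refine ih _ _ ?_ (lam_rc (k := k) hβ.2 hγ.2 _ _ _ _ _ _ h1 (lam_symm h3) (lam_refl _ _))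
        have e1 : α (p a b b) (p a a b) :=
          hα.2 _ _ _ _ _ _ (α.refl _) (α.symm hab) (α.refl _)
        have e2 : α (p c d b) (p c c b) :=
          hα.2 _ _ _ _ _ _ (α.refl _) (α.symm (hle h2)) (α.refl _)
        rw [hG.maltsev] at e1 e2
        exact α.trans e1 (α.symm e2)
      have h6 : η (p c d b) (p c c b) := hγη
        (hγ.2 _ _ _ _ _ _ (γ.refl _) (γ.symm h2) (γ.refl _))
      rw [hG.maltsev] at h6
      exact η.trans h4 (η.trans h5 h6)
  intro a b hab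
  obtain ⟨k, hk⟩ := exists_lam hab.2
  exact key k a b hab.1 hk

/-- The congruences. -/
def GCong (n : ℕ) (q : ℕ → A → A → A → A) (p : A → A → A → A) (_ : IsGumm n q p) : Type _ :=
  {s : Setoid A // SC n q p s}

variable {hG : IsGumm n q p}

noncomputable instance instLat : Lattice (GCong n q p hG) :=
  Subtype.lattice (fun _ _ h h' => h.sup h') (fun _ _ h h' => h.inf h')

theorem gcoe_sup (a b : GCong n q p hG) : (a ⊔ b).1 = a.1 ⊔ b.1 := rfl

theorem gcoe_inf (a b : GCong n q p hG) : (a ⊓ b).1 = a.1 ⊓ b.1 := rfl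

theorem gcoe_le {a b : GCong n q p hG} : a ≤ b ↔ a.1 ≤ b.1 := Iff.rfl

/-- Congruence lattices of algebras with Gumm operations are modular. -/
instance : IsModularLattice (GCong n q p hG) where
  sup_inf_le_assoc_of_le := by
    intro x y z hxz
    have h := modular hG z.2 y.2 x.2 hxz
    rw [gcoe_le, gcoe_inf, gcoe_sup, gcoe_sup, gcoe_inf, inf_comm, sup_comm x.1 y.1,
      sup_comm x.1, inf_comm y.1]
    exact h

section Diamond

variable {L : Type*} [Lattice L] (x y z : L)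

/-- The lower median. -/
def lo : L := (x ⊓ y) ⊔ (y ⊓ z) ⊔ (x ⊓ z)

/-- The upper median. -/
def up : L := (x ⊔ y) ⊓ (y ⊔ z) ⊓ (x ⊔ z)

theorem lo_swap : lo x y z = lo y x z := by
  rw [lo, lo, inf_comm y x, sup_assoc, sup_assoc, sup_comm (y ⊓ z)]

theorem lo_swap' : lo x y z = lo x z y := by
  rw [lo, lo, inf_comm y z, sup_assoc, sup_comm (z ⊓ y), ← sup_assoc, sup_comm (x ⊓ y), sup_assoc,
    sup_assoc, sup_comm (x ⊓ y)]

theorem up_swap : up x y z = up y x z := by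
  rw [up, up, sup_comm y x, inf_assoc, inf_assoc, inf_comm (y ⊔ z)]

theorem up_swap' : up x y z = up x z y := by
  rw [up, up, sup_comm y z, inf_assoc, inf_comm (z ⊔ y), ← inf_assoc, inf_comm (x ⊔ y), inf_assoc,
    inf_assoc, inf_comm (x ⊔ y)]

theorem inf_up : x ⊓ up x y z = x ⊓ (y ⊔ z) := by
  rw [up]
  apply le_antisymm
  · exact le_inf inf_le_left (inf_le_right.trans (inf_le_left.trans inf_le_right))
  · exact le_inf inf_le_left (le_inf (le_inf (inf_le_left.trans le_sup_left) inf_le_right)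
      (inf_le_left.trans le_sup_left))

theorem diamond_sup : (x ⊓ up x y z) ⊔ lo x y z = (x ⊓ (y ⊔ z)) ⊔ (y ⊓ z) := by
  rw [inf_up, lo]
  apply le_antisymm
  · refine sup_le le_sup_left (sup_le (sup_le ?_ le_sup_right) ?_)
    · exact le_sup_of_le_left (le_inf inf_le_left (inf_le_right.trans le_sup_left))
    · exact le_sup_of_le_left (le_inf inf_le_left (inf_le_right.trans le_sup_right))
  · exact sup_le le_sup_left (le_sup_of_le_right (le_sup_of_le_left le_sup_right))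

variable [IsModularLattice L]

theorem diamond_inf : (x ⊓ up x y z) ⊔ lo x y z = (x ⊔ (y ⊓ z)) ⊓ (y ⊔ z) := by
  rw [diamond_sup, sup_comm x, sup_inf_assoc_of_le x (inf_le_left.trans le_sup_left : y ⊓ z ≤ y ⊔ z),
    sup_comm]

theorem diamond_meet : ((x ⊓ up x y z) ⊔ lo x y z) ⊓ ((y ⊓ up x y z) ⊔ lo x y z) ≤ lo x y z := by
  have h1 := diamond_inf x y z
  have h2 := diamond_inf y x z
  rw [up_swap y x z, lo_swap y x z] at h2
  rw [h1, h2]
  have h3 : (x ⊔ y ⊓ z) ⊓ (y ⊔ z) ⊓ ((y ⊔ x ⊓ z) ⊓ (x ⊔ z)) ≤ (y ⊓ z ⊔ x) ⊓ (y ⊔ x ⊓ z) := by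
    rw [sup_comm (y ⊓ z) x]
    exact inf_le_inf inf_le_left inf_le_left
  refine h3.trans ?_
  rw [sup_inf_assoc_of_le x (inf_le_left.trans le_sup_left : y ⊓ z ≤ y ⊔ x ⊓ z), inf_comm x,
    sup_comm y, sup_inf_assoc_of_le y (inf_le_left : x ⊓ z ≤ x), lo]
  refine sup_le (le_sup_of_le_left le_sup_right) (sup_le le_sup_right ?_)
  rw [inf_comm y x]
  exact le_sup_of_le_left le_sup_left

theorem diamond_join : up x y z ≤ ((x ⊓ up x y z) ⊔ lo x y z) ⊔ ((y ⊓ up x y z) ⊔ lo x y z) := by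
  have h1 : x ⊓ (y ⊔ z) ≤ (x ⊓ up x y z) ⊔ lo x y z := by
    rw [diamond_sup]; exact le_sup_left
  have h2 : y ⊓ (x ⊔ z) ≤ (y ⊓ up x y z) ⊔ lo x y z := by
    have h := diamond_sup y x z
    rw [up_swap y x z, lo_swap y x z] at h
    rw [h]; exact le_sup_left
  refine le_trans ?_ (sup_le_sup h1 h2)
  rw [← sup_inf_assoc_of_le y (inf_le_left.trans le_sup_left : x ⊓ (y ⊔ z) ≤ x ⊔ z), up]
  refine le_inf ?_ inf_le_right
  have h3 := sup_inf_assoc_of_le x (le_sup_left : y ≤ y ⊔ z)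
  have h4 : x ⊓ (y ⊔ z) ⊔ y = (y ⊔ x) ⊓ (y ⊔ z) := by rw [h3, sup_comm]
  rw [h4, sup_comm y x]
  exact inf_le_left

end Diamond

/-! ### Permutability modulo the lower median -/

section Perm

/-- The term condition. If `t` is compatible with `β`, `γ`, `α`, `μ`, where `α ⊓ β ≤ μ ≤ β` and
`α ⊓ γ ≤ μ ≤ γ`, then `a ↦ (μ (t a u) (t a v))` is invariant under `β ⊔ γ`, for `α u v`. -/
theorem term {α β γ μ : Setoid A} (hβ1 : α ⊓ β ≤ μ) (hβ2 : μ ≤ β) (hγ1 : α ⊓ γ ≤ μ) (hγ2 : μ ≤ γ)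
    {t : A → A → A} (hα : ∀ a u v, α u v → α (t a u) (t a v))
    (hβ : ∀ a b u, β a b → β (t a u) (t b u)) (hγ : ∀ a b u, γ a b → γ (t a u) (t b u))
    {u v : A} (huv : α u v) {a b : A} (hab : (β ⊔ γ) a b) (h : μ (t a u) (t a v)) :
    μ (t b u) (t b v) := by
  have hb : ∀ x y, β x y → (μ (t x u) (t x v) ↔ μ (t y u) (t y v)) := by
    have h1 : ∀ x y, β x y → μ (t x u) (t x v) → μ (t y u) (t y v) := fun x y hxy h =>
      hβ1 ⟨hα _ _ _ huv, β.trans (β.symm (hβ _ _ _ hxy)) (β.trans (hβ2 h) (hβ _ _ _ hxy))⟩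
    exact fun x y hxy => ⟨h1 x y hxy, h1 y x (β.symm hxy)⟩
  have hc : ∀ x y, γ x y → (μ (t x u) (t x v) ↔ μ (t y u) (t y v)) := by
    have h1 : ∀ x y, γ x y → μ (t x u) (t x v) → μ (t y u) (t y v) := fun x y hxy h =>
      hγ1 ⟨hα _ _ _ huv, γ.trans (γ.symm (hγ _ _ _ hxy)) (γ.trans (hγ2 h) (hγ _ _ _ hxy))⟩
    exact fun x y hxy => ⟨h1 x y hxy, h1 y x (γ.symm hxy)⟩
  let w : Setoid A :=
    { r := fun x y => (μ (t x u) (t x v) ↔ μ (t y u) (t y v))
      iseqv := ⟨fun _ => Iff.rfl, fun h => h.symm, fun h h' => h.trans h'⟩ }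
  have h1 : β ⊔ γ ≤ w := sup_le (fun {x y} h => hb x y h) (fun {x y} h => hc x y h)
  exact (h1 hab).1 h

/-- `p` is a Maltsev operation modulo `μ` on `α`-related pairs. -/
theorem maltsev_mod (hG : IsGumm n q p) {α β γ μ : Setoid A} (hα : SC n q p α) (hβ : SC n q p β) (hγ : SC n q p γ)
    (hβ1 : α ⊓ β ≤ μ) (hβ2 : μ ≤ β) (hγ1 : α ⊓ γ ≤ μ) (hγ2 : μ ≤ γ) (hle : α ≤ β ⊔ γ)
    {a b : A} (hab : α a b) : μ a (p a b b) := by
  refine chain hG μ fun i hi => ?_
  refine term (t := fun x s => q i a s x) hβ1 hβ2 hγ1 hγ2 ?_ ?_ ?_ hab (hle hab) ?_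
  · exact fun x u v h => hα.1 i hi _ _ _ _ _ _ (α.refl _) h (α.refl _)
  · exact fun x y u h => hβ.1 i hi _ _ _ _ _ _ (β.refl _) (β.refl _) h
  · exact fun x y u h => hγ.1 i hi _ _ _ _ _ _ (γ.refl _) (γ.refl _) h
  · show μ (q i a a a) (q i a b a)
    rw [hG.idem i hi, hG.idem i hi]

/-- Composition of relations which permute. -/
theorem sup_of_perm {s t : Setoid A} (h : ∀ x y z, s x y → t y z → ∃ w, t x w ∧ s w z) {x y : A}
    (hxy : (s ⊔ t) x y) : ∃ w, s x w ∧ t w y := by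
  let w : Setoid A :=
    { r := fun x y => ∃ w, s x w ∧ t w y
      iseqv := by
        refine ⟨fun a => ⟨a, s.refl a, t.refl a⟩, ?_, ?_⟩
        · rintro a b ⟨c, h1, h2⟩
          obtain ⟨d, h3, h4⟩ := h _ _ _ h1 h2
          exact ⟨d, s.symm h4, t.symm h3⟩
        · rintro a b c ⟨d, h1, h2⟩ ⟨e, h3, h4⟩
          obtain ⟨u, h5, h6⟩ := h _ _ _ (s.symm h3) (t.symm h2)
          exact ⟨u, s.trans h1 (s.symm h6), t.trans (t.symm h5) h4⟩ }
  have h1 : s ⊔ t ≤ w := sup_le (fun {a b} h => ⟨b, h, t.refl b⟩)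
    (fun {a b} h => ⟨a, s.refl a, h⟩)
  exact h1 hxy

end Perm

/-- The structure of the classes of the upper median. -/
structure Struct (θ : Fin 3 → Setoid A) (μ δ : Setoid A) (ρ : Fin 3 → Setoid A) : Prop where
  le_rho : ∀ i, μ ≤ ρ i
  rho_le : ∀ i, ρ i ≤ δ
  theta_le : ∀ i x y, θ i x y → δ x y → ρ i x y
  rho : ∀ i x y, ρ i x y → ∃ w, θ i x w ∧ μ w y
  full : ∀ i j, i ≠ j → ∀ x y, δ x y → ∃ w, θ i x w ∧ δ x w ∧ ρ j w y
  meet : ∀ i j, i ≠ j → ∀ x y, ρ i x y → ρ j x y → μ x y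

theorem struct (hG : IsGumm n q p) (θ : Fin 3 → GCong n q p hG) :
    Struct (fun i => (θ i).1) (lo (θ 0) (θ 1) (θ 2)).1 (up (θ 0) (θ 1) (θ 2)).1
      (fun i => ((θ i ⊓ up (θ 0) (θ 1) (θ 2)) ⊔ lo (θ 0) (θ 1) (θ 2)).1) := by
  set u := lo (θ 0) (θ 1) (θ 2) with hu
  set v := up (θ 0) (θ 1) (θ 2) with hv
  set r : Fin 3 → GCong n q p hG := fun i => (θ i ⊓ v) ⊔ u with hr
  have hperm : ∀ i j : Fin 3, i ≠ j → ∃ k, (lo (θ i) (θ j) (θ k) = u ∧ up (θ i) (θ j) (θ k) = v) ∧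
      i ≠ k ∧ j ≠ k := by
    intro i j hij
    fin_cases i <;> fin_cases j
    · exact absurd rfl hij
    · exact ⟨2, ⟨rfl, rfl⟩, by decide, by decide⟩
    · exact ⟨1, ⟨lo_swap' _ _ _, up_swap' _ _ _⟩, by decide, by decide⟩
    · exact ⟨2, ⟨lo_swap _ _ _, up_swap _ _ _⟩, by decide, by decide⟩
    · exact absurd rfl hij
    · exact ⟨0, ⟨(lo_swap' _ _ _).trans (lo_swap _ _ _), (up_swap' _ _ _).trans (up_swap _ _ _)⟩,
        by decide, by decide⟩
    · exact ⟨1, ⟨(lo_swap _ _ _).trans (lo_swap' _ _ _), (up_swap _ _ _).trans (up_swap' _ _ _)⟩,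
        by decide, by decide⟩
    · exact ⟨0, ⟨(lo_swap _ _ _).trans ((lo_swap' _ _ _).trans (lo_swap _ _ _)),
        (up_swap _ _ _).trans ((up_swap' _ _ _).trans (up_swap _ _ _))⟩, by decide, by decide⟩
    · exact absurd rfl hij
  have huv : ∀ i, u ≤ r i := fun i => le_sup_right
  have hmeet : ∀ i j, i ≠ j → r i ⊓ r j ≤ u := by
    intro i j hij
    obtain ⟨k, ⟨h1, h2⟩, -, -⟩ := hperm i j hij
    have h3 := diamond_meet (θ i) (θ j) (θ k)
    rw [h1, h2] at h3
    exact h3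
  have hjoin : ∀ i j, i ≠ j → v ≤ r i ⊔ r j := by
    intro i j hij
    obtain ⟨k, ⟨h1, h2⟩, -, -⟩ := hperm i j hij
    have h3 := diamond_join (θ i) (θ j) (θ k)
    rw [h1, h2] at h3
    exact h3
  have huv' : u ≤ v := by
    rw [hu, hv, lo, up]
    refine sup_le (sup_le ?_ ?_) ?_
    · exact le_inf (le_inf (inf_le_left.trans le_sup_left) (inf_le_right.trans le_sup_left))
        (inf_le_left.trans le_sup_left)
    · exact le_inf (le_inf (inf_le_left.trans le_sup_right) (inf_le_left.trans le_sup_left))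
        (inf_le_right.trans le_sup_right)
    · exact le_inf (le_inf (inf_le_left.trans le_sup_left) (inf_le_right.trans le_sup_right))
        (inf_le_left.trans le_sup_left)
  have hrv : ∀ i, r i ≤ v := fun i => sup_le inf_le_right huv'
  have hmal : ∀ i a b, (r i).1 a b → u.1 a (p a b b) := by
    intro i a b hab
    obtain ⟨j, hij, k, hik, hjk⟩ : ∃ j, i ≠ j ∧ ∃ k, i ≠ k ∧ j ≠ k := by
      fin_cases i
      · exact ⟨1, by decide, 2, by decide, by decide⟩
      · exact ⟨0, by decide, 2, by decide, by decide⟩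
      · exact ⟨0, by decide, 1, by decide, by decide⟩
    exact maltsev_mod hG (α := (r i).1) (β := (r j).1) (γ := (r k).1) (μ := u.1) (r i).2 (r j).2
      (r k).2 (hmeet i j hij) (huv j) (hmeet i k hik) (huv k) ((hrv i).trans (hjoin j k hjk)) hab
  have hpu : ∀ i x y z, (θ i ⊓ v).1 x y → u.1 y z → ∃ w, u.1 x w ∧ (θ i ⊓ v).1 w z := by
    intro i x y z h1 h2
    refine ⟨p x y z, ?_, ?_⟩
    · refine u.1.trans (hmal i x y ((le_sup_left : θ i ⊓ v ≤ r i) h1)) ?_
      exact u.2.2 _ _ _ _ _ _ (u.1.refl _) (u.1.refl _) h2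
    · have h3 := (θ i ⊓ v).2.2 _ _ _ _ z z h1 ((θ i ⊓ v).1.refl y) ((θ i ⊓ v).1.refl z)
      rwa [hG.maltsev] at h3
  have hrho : ∀ i x y, (r i).1 x y → ∃ w, (θ i ⊓ v).1 x w ∧ u.1 w y := fun i x y h =>
    sup_of_perm (hpu i) h
  have hpr : ∀ i j x y z, (r i).1 x y → (r j).1 y z → ∃ w, (r j).1 x w ∧ (r i).1 w z := by
    intro i j x y z h1 h2
    refine ⟨p x y z, ?_, ?_⟩
    · refine (r j).1.trans (huv j (hmal i x y h1)) ?_
      exact (r j).2.2 _ _ _ _ _ _ ((r j).1.refl _) ((r j).1.refl _) h2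
    · have h3 := (r i).2.2 _ _ _ _ z z h1 ((r i).1.refl y) ((r i).1.refl z)
      rwa [hG.maltsev] at h3
  refine ⟨huv, hrv, ?_, ?_, ?_, ?_⟩
  · intro i x y h1 h2
    exact (le_sup_left : θ i ⊓ v ≤ r i) ⟨h1, h2⟩
  · intro i x y h
    obtain ⟨w, h1, h2⟩ := hrho i x y h
    exact ⟨w, h1.1, h2⟩
  · intro i j hij x y hxy
    obtain ⟨w, h1, h2⟩ := sup_of_perm (hpr i j) (hjoin i j hij hxy)
    obtain ⟨w', h3, h4⟩ := hrho i x w h1
    exact ⟨w', h3.1, h3.2, (r j).1.trans (huv j h4) h2⟩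
  · intro i j hij x y h1 h2
    exact hmeet i j hij ⟨h1, h2⟩

end Pool.Agent.Helper42.BES
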