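import Pool.Agent.Helper42.BES.Box

/-!
# Modular pieces and Maltsev pieces
-/

set_option autoImplicit false

namespace Pool.Agent.Helper42.BES

open Finset Pool.Agent.R181.Maj Pool.Agent.R181.LW

/-- `F` is a relation between three pairwise disjoint sets of vertices, closed under componentwise
application of some Gumm operations on these sets. -/
def ModularPiece {V : Type} (F : Set (Finset V)) : Prop :=
  ∃ (X : Fin 3 → Type) (n : ℕ) (q : ℕ → ∀ i, X i → X i → X i → X i)
    (p : ∀ i, X i → X i → X i → X i) (f : (Σ i, X i) → V) (E : Set (∀ i, X i)),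
    (∀ i, IsGumm n (fun k => q k i) (p i)) ∧ Function.Injective f ∧
    (∀ k ≤ n, ∀ x ∈ E, ∀ y ∈ E, ∀ z ∈ E, (fun i => q k i (x i) (y i) (z i)) ∈ E) ∧
    (∀ x ∈ E, ∀ y ∈ E, ∀ z ∈ E, (fun i => p i (x i) (y i) (z i)) ∈ E) ∧ F = edge f '' E

/-- `F` is a relation between three pairwise disjoint sets of vertices, closed under componentwise
application of some Maltsev operations on these sets. -/
def MaltsevPiece {V : Type} (F : Set (Finset V)) : Prop :=
  ∃ (X : Fin 3 → Type) (p : ∀ i, X i → X i → X i → X i) (f : (Σ i, X i) → V) (E : Set (∀ i, X i)),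
    (∀ i a b, p i a b b = a ∧ p i a a b = b) ∧ Function.Injective f ∧
    (∀ x ∈ E, ∀ y ∈ E, ∀ z ∈ E, (fun i => p i (x i) (y i) (z i)) ∈ E) ∧ F = edge f '' E

variable {V : Type}

theorem isGumm_maltsev {A : Type*} {p : A → A → A → A} (hp : ∀ a b, p a b b = a ∧ p a a b = b) :
    IsGumm 0 (fun _ a _ _ => a) p :=
  ⟨fun _ _ _ => rfl, fun _ _ _ _ => rfl, fun _ h => absurd h (Nat.not_lt_zero _),
    fun _ h => absurd h (Nat.not_lt_zero _), fun a b => (hp a b).1.symm, fun a b => (hp a b).2⟩

theorem MaltsevPiece.modular {F : Set (Finset V)} (hF : MaltsevPiece F) : ModularPiece F := by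
  obtain ⟨X, p, f, E, hp, hf, hE, rfl⟩ := hF
  exact ⟨X, 0, fun _ _ a _ _ => a, p, f, E, fun i => isGumm_maltsev (hp i), hf,
    fun _ _ x hx _ _ _ _ => hx, hE, rfl⟩

theorem modular_of_majority {F : Set (Finset V)} (hF : MajorityPiece 3 F) : ModularPiece F := by
  obtain ⟨X, μ, f, E, hμ, hf, hE, rfl⟩ := hF
  refine ⟨X, 2, fun k i a b c => if k = 2 then μ i a b c else a, fun _ _ _ c => c, f, E, ?_, hf,
    ?_, fun _ _ _ _ z hz => hz, rfl⟩
  · intro i
    refine ⟨?_, ?_, ?_, ?_, ?_, ?_⟩
    · intro a b c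
      simp
    · intro k _ a b
      by_cases h : k = 2
      · simp only [h, if_true]
        exact (hμ i a b).2.1
      · simp only [h, if_false]
    · intro k hk he a b
      have hk0 : k = 0 := by
        interval_cases k
        · rfl
        · exact absurd he (by decide)
      subst hk0
      simp
    · intro k hk he a b
      have hk1 : k = 1 := by
        interval_cases k
        · exact absurd (by decide) he
        · rfl
      subst hk1
      show (if (1 : ℕ) = 2 then μ i a a b else a) = (if 1 + 1 = 2 then μ i a a b else a)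
      rw [if_neg (by norm_num), if_pos rfl]
      exact (hμ i a b).1.symm
    · intro a b
      simp only [if_true]
      exact (hμ i b a).2.2
    · intro a b
      rfl
  · intro k _ x hx y hy z hz
    by_cases h : k = 2
    · simp only [h, if_true]
      exact hE x hx y hy z hz
    · simp only [h, if_false]
      exact hx

theorem piece_bound [Fintype V] {e : ℕ} (he : 1 ≤ e) {H : Set (Finset V)}
    (hH : SpanMore H e (e + 3)) {F : Set (Finset V)} (hF : ModularPiece F) (hFH : F ⊆ H) :
    27 * F.ncard ^ 2 ≤ (e - 1) ^ 2 * Fintype.card V ^ 3 := by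
  classical
  obtain ⟨X, n, q, p, f, E, hG, hf, hq, hp, rfl⟩ := hF
  have hfi : ∀ i, Function.Injective fun a : X i => f ⟨i, a⟩ := fun i a b hab =>
    eq_of_heq (Sigma.mk.inj (hf hab)).2
  have : ∀ i, Finite (X i) := fun i => Finite.of_injective _ (hfi i)
  let _ : ∀ i, Fintype (X i) := fun i => Fintype.ofFinite (X i)
  have hs : ∀ T ⊆ E.toFinset, #T = e → e + 3 < ∑ i, #(T.image fun x => x i) := by
    intro T hT hTe
    have h1 := hH (T.image (edge f)) (by
      rw [coe_image]
      intro a ha
      obtain ⟨x, hx, rfl⟩ := ha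
      exact hFH ⟨x, Set.mem_toFinset.1 (hT hx), rfl⟩)
      (by rw [card_image_of_injective _ (edge_injective hf), hTe])
    rwa [union_eq hf] at h1
  have h := bound3 (H := E.toFinset) hG (fun k hk x hx y hy z hz => by
    rw [Set.mem_toFinset] at *
    exact hq k hk x hx y hy z hz) (fun x hx y hy z hz => by
    rw [Set.mem_toFinset] at *
    exact hp x hx y hy z hz) e he hs
  rw [← Set.ncard_eq_toFinset_card'] at h
  have h1 : (edge f '' E).ncard = E.ncard := Set.ncard_image_of_injective _ (edge_injective hf)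
  rw [h1]
  have h3 : ∏ i, #(E.toFinset.image fun x => x i) ≤ ∏ i, Fintype.card (X i) :=
    prod_le_prod' fun i _ => card_le_univ _
  have h4 := amgm (univ : Finset (Fin 3)) univ_nonempty fun i => Fintype.card (X i)
  rw [card_univ, Fintype.card_fin] at h4
  have h5 : ∑ i, Fintype.card (X i) ≤ Fintype.card V := by
    rw [← Fintype.card_sigma]
    exact Fintype.card_le_of_injective f hf
  calc 27 * E.ncard ^ 2
      ≤ 27 * ((e - 1) ^ 2 * ∏ i, Fintype.card (X i)) :=
        Nat.mul_le_mul_left _ (h.trans (Nat.mul_le_mul_left _ h3))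
    _ = (e - 1) ^ 2 * (3 ^ 3 * ∏ i, Fintype.card (X i)) := by ring
    _ ≤ (e - 1) ^ 2 * (∑ i, Fintype.card (X i)) ^ 3 := Nat.mul_le_mul_left _ h4
    _ ≤ _ := Nat.mul_le_mul_left _ (Nat.pow_le_pow_left h5 _)

theorem maltsev_bound [Fintype V] {s : ℕ} (hs : s = 18 ∨ 22 ≤ s) {H : Set (Finset V)}
    (hH : SpanMore H s (s + 3)) {F : Set (Finset V)} (hF : MaltsevPiece F) (hFH : F ⊆ H) :
    F.ncard ≤ (s - 1) * ((s - 1) / 6) * Fintype.card V := by
  classical
  obtain ⟨X, p, f, E, hp, hf, hE, rfl⟩ := hF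
  have hfi : ∀ i, Function.Injective fun a : X i => f ⟨i, a⟩ := fun i a b hab =>
    eq_of_heq (Sigma.mk.inj (hf hab)).2
  have : ∀ i, Finite (X i) := fun i => Finite.of_injective _ (hfi i)
  let _ : ∀ i, Fintype (X i) := fun i => Fintype.ofFinite (X i)
  have hs' : ∀ T ⊆ E.toFinset, #T = s → s + 3 < ∑ i, #(T.image fun x => x i) := by
    intro T hT hTe
    have h1 := hH (T.image (edge f)) (by
      rw [coe_image]
      intro a ha
      obtain ⟨x, hx, rfl⟩ := ha
      exact hFH ⟨x, Set.mem_toFinset.1 (hT hx), rfl⟩)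
      (by rw [card_image_of_injective _ (edge_injective hf), hTe])
    rwa [union_eq hf] at h1
  have hq : ∀ k ≤ 0, OpClosed ((fun _ _ a _ _ => a : ℕ → ∀ i, X i → X i → X i → X i) k)
      E.toFinset := fun k _ x hx y hy z hz => hx
  have hcl : OpClosed p E.toFinset := fun x hx y hy z hz => by
    rw [Set.mem_toFinset] at *
    exact hE x hx y hy z hz
  have hG := isGumm_on (fun i => isGumm_maltsev (hp i)) hq hcl
  have hmain : Fintype.card {x // x ∈ E.toFinset} ≤ (s - 1) * ((s - 1) / 6) *
      ∑ i : Fin 3, #((univ : Finset {x // x ∈ E.toFinset}).image fun x => x.1 i) := by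
    by_cases h22 : s = 22
    · subst h22
      have h := linear hG (fun i x => x.1 i) (fun x y h => Subtype.ext (funext h))
        (kerSC hq hcl) 22 2 3 4 (by norm_num) (by norm_num) (by norm_num) (by norm_num)
        (by norm_num) (by norm_num) (by norm_num) (spn_on hs')
      exact h
    · have h := linear hG (fun i x => x.1 i) (fun x y h => Subtype.ext (funext h))
        (kerSC hq hcl) s 3 3 ((s - 1) / 6 + 1) (by omega) (by norm_num) (by norm_num) (by omega)
        (by omega) (by omega) (by omega) (spn_on hs')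
      rwa [Nat.add_sub_cancel] at h
  rw [Fintype.card_coe, ← Set.ncard_eq_toFinset_card'] at hmain
  have h1 : (edge f '' E).ncard = E.ncard := Set.ncard_image_of_injective _ (edge_injective hf)
  rw [h1]
  refine hmain.trans (Nat.mul_le_mul_left _ ?_)
  have h5 : ∑ i, Fintype.card (X i) ≤ Fintype.card V := by
    rw [← Fintype.card_sigma]
    exact Fintype.card_le_of_injective f hf
  exact (sum_le_sum fun i _ => card_le_univ _).trans h5

/-! ### All locally sparse 3-graphs are unions of few Maltsev pieces -/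

/-- Greedy colouring. -/
theorem greedy {α : Type*} [DecidableEq α] (R : α → α → Prop) [DecidableRel R]
    (hR : ∀ a b, R a b → R b a) (K : ℕ) (T : Finset α) :
    (∀ e ∈ T, #(T.filter (R e)) < K) →
    ∃ c : α → ℕ, (∀ e ∈ T, c e < K) ∧ ∀ e ∈ T, ∀ e' ∈ T, e ≠ e' → R e e' → c e ≠ c e' := by
  induction T using Finset.induction_on with
  | empty => exact fun _ => ⟨fun _ => 0, fun e he => absurd he (notMem_empty _),
      fun e he => absurd he (notMem_empty _)⟩
  | insert a T ha ih =>
    intro h
    obtain ⟨c, hc1, hc2⟩ := ih fun e he => lt_of_le_of_lt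
      (card_le_card (filter_subset_filter _ (subset_insert _ _))) (h e (mem_insert_of_mem he))
    have h1 : #((T.filter (R a)).image c) < K := (card_image_le.trans
      (card_le_card (filter_subset_filter _ (subset_insert _ _)))).trans_lt
      (h a (mem_insert_self _ _))
    obtain ⟨k, hk, hk'⟩ : ∃ k ∈ range K, k ∉ (T.filter (R a)).image c := by
      by_contra hcon
      push Not at hcon
      have := card_le_card (show range K ⊆ (T.filter (R a)).image c from hcon)
      rw [card_range] at this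
      omega
    have hne : ∀ e ∈ T, e ≠ a := fun e he h => ha (h ▸ he)
    refine ⟨Function.update c a k, ?_, ?_⟩
    · intro e he
      rcases mem_insert.1 he with rfl | he
      · rw [Function.update_self]
        exact mem_range.1 hk
      · rw [Function.update_of_ne (hne e he)]
        exact hc1 e he
    · intro e he e' he' hee hRe
      rcases mem_insert.1 he with h2 | h2
      · rcases mem_insert.1 he' with h3 | h3
        · exact absurd (h2.trans h3.symm) hee
        · rw [h2, Function.update_self, Function.update_of_ne (hne e' h3)]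
          intro h4
          exact hk' (h4 ▸ mem_image_of_mem _ (mem_filter.2 ⟨h3, h2 ▸ hRe⟩))
      · rcases mem_insert.1 he' with h3 | h3
        · rw [h3, Function.update_self, Function.update_of_ne (hne e h2)]
          intro h4
          exact hk' (h4 ▸ mem_image_of_mem _ (mem_filter.2 ⟨h2, hR _ _ (h3 ▸ hRe)⟩))
        · rw [Function.update_of_ne (hne e h2), Function.update_of_ne (hne e' h3)]
          exact hc2 e h2 e' h3 hee hRe

/-- A set of pairwise disjoint triples is a Maltsev piece. -/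
theorem maltsev_matching (M : Set (Finset V)) (h3 : ∀ e ∈ M, #e = 3)
    (hd : ∀ e ∈ M, ∀ e' ∈ M, e ≠ e' → Disjoint e e') : MaltsevPiece M := by
  classical
  let g : (e : M) → Fin 3 → V := fun e i => ((e.1.equivFinOfCardEq (h3 e.1 e.2)).symm i : V)
  have hg : ∀ (e : M) i, g e i ∈ e.1 := fun e i => ((e.1.equivFinOfCardEq (h3 e.1 e.2)).symm i).2
  have hginj : ∀ e : M, Function.Injective (g e) := fun e i j h =>
    (e.1.equivFinOfCardEq (h3 e.1 e.2)).symm.injective (Subtype.ext h)
  refine ⟨fun _ => M, fun _ a b c => if a = b then c else a, fun x => g x.2 x.1,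
    Set.range fun (e : M) (_ : Fin 3) => e, ?_, ?_, ?_, ?_⟩
  · intro i a b
    refine ⟨?_, by simp⟩
    by_cases h : a = b
    · simp [h]
    · simp [h]
  · rintro ⟨i, e⟩ ⟨j, e'⟩ h
    have h' : g e i = g e' j := h
    have hee : e = e' := by
      by_contra hne
      have h1 := hd e.1 e.2 e'.1 e'.2 fun h => hne (Subtype.ext h)
      rw [Finset.disjoint_left] at h1
      exact h1 (hg e i) (h' ▸ hg e' j)
    subst hee
    rw [hginj e h']
  · rintro _ ⟨a, rfl⟩ _ ⟨b, rfl⟩ _ ⟨c, rfl⟩
    exact ⟨if a = b then c else a, rfl⟩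
  · ext e
    constructor
    · intro he
      refine ⟨fun _ => ⟨e, he⟩, ⟨⟨e, he⟩, rfl⟩, ?_⟩
      ext v
      rw [edge, mem_image]
      constructor
      · rintro ⟨i, -, rfl⟩
        exact hg ⟨e, he⟩ i
      · intro hv
        refine ⟨e.equivFinOfCardEq (h3 e he) ⟨v, hv⟩, mem_univ _, ?_⟩
        show (((e.equivFinOfCardEq (h3 e he)).symm (e.equivFinOfCardEq (h3 e he) ⟨v, hv⟩) : e) : V)
          = v
        rw [Equiv.symm_apply_apply]
    · rintro ⟨_, ⟨e', rfl⟩, rfl⟩
      have h1 : edge (X := fun _ => M) (fun x => g x.2 x.1) (fun _ => e') = e'.1 := by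
        ext v
        rw [edge, mem_image]
        constructor
        · rintro ⟨i, -, rfl⟩
          exact hg e' i
        · intro hv
          refine ⟨e'.1.equivFinOfCardEq (h3 e'.1 e'.2) ⟨v, hv⟩, mem_univ _, ?_⟩
          show (((e'.1.equivFinOfCardEq (h3 e'.1 e'.2)).symm
            (e'.1.equivFinOfCardEq (h3 e'.1 e'.2) ⟨v, hv⟩) : e'.1) : V) = v
          rw [Equiv.symm_apply_apply]
      rw [h1]
      exact e'.2

theorem union_of_maltsev [Fintype V] {s : ℕ} (hs : 1 ≤ s) (H : Set (Finset V))
    (h3 : ∀ e ∈ H, #e = 3) (hH : SpanMore H s (s + 3)) :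
    ∃ F : Fin (3 * s * Fintype.card V) → Set (Finset V), (∀ i, MaltsevPiece (F i)) ∧
      H = ⋃ i, F i := by
  classical
  set T : Finset (Finset V) := H.toFinset with hT
  have hmT : ∀ e, e ∈ T ↔ e ∈ H := fun e => Set.mem_toFinset
  -- codegrees
  have hco : ∀ u v : V, u ≠ v → #(T.filter fun e => u ∈ e ∧ v ∈ e) ≤ s - 1 := by
    intro u v huv
    by_contra hcon
    push Not at hcon
    obtain ⟨W, hW, hWs⟩ := exists_subset_card_eq (show s ≤ #(T.filter fun e => u ∈ e ∧ v ∈ e) by
      omega)
    have h1 := hH W (fun e he => (hmT e).1 (mem_filter.1 (hW (mem_coe.1 he))).1) hWs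
    have h2 : (⋃ a ∈ W, (a : Set V)) = ((W.biUnion id : Finset V) : Set V) := by
      ext x
      simp
    rw [h2, Set.ncard_coe_finset] at h1
    have h4 : W.biUnion id ⊆ insert u (insert v (W.biUnion fun e => (e.erase u).erase v)) := by
      intro x hx
      obtain ⟨e, he, hxe⟩ := mem_biUnion.1 hx
      by_cases hxu : x = u
      · exact hxu ▸ mem_insert_self _ _
      · by_cases hxv : x = v
        · exact hxv ▸ mem_insert_of_mem (mem_insert_self _ _)
        · exact mem_insert_of_mem (mem_insert_of_mem (mem_biUnion.2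
            ⟨e, he, mem_erase.2 ⟨hxv, mem_erase.2 ⟨hxu, hxe⟩⟩⟩))
    have h5 : #(W.biUnion fun e => (e.erase u).erase v) ≤ s := by
      refine card_biUnion_le.trans ?_
      have h6 : ∀ e ∈ W, #((e.erase u).erase v) ≤ 1 := by
        intro e he
        have h7 := mem_filter.1 (hW he)
        rw [card_erase_of_mem (mem_erase.2 ⟨huv.symm, h7.2.2⟩), card_erase_of_mem h7.2.1,
          h3 e ((hmT e).1 h7.1)]
      refine (sum_le_sum h6).trans ?_
      rw [sum_const, smul_eq_mul, mul_one, hWs]
    have h8 := card_le_card h4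
    have h9 := card_insert_le u (insert v (W.biUnion fun e => (e.erase u).erase v))
    have h10 := card_insert_le v (W.biUnion fun e => (e.erase u).erase v)
    omega
  -- degrees
  have hdeg : ∀ v : V, #(T.filter fun e => v ∈ e) ≤ Fintype.card V * (s - 1) := by
    intro v
    have h1 : T.filter (fun e => v ∈ e) ⊆ (univ.erase v).biUnion fun u =>
        T.filter fun e => u ∈ e ∧ v ∈ e := by
      intro e he
      obtain ⟨he1, he2⟩ := mem_filter.1 he
      have h2 : 1 < #e := by
        rw [h3 e ((hmT e).1 he1)]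
        norm_num
      obtain ⟨u, hu, huv⟩ := exists_mem_ne h2 v
      exact mem_biUnion.2 ⟨u, mem_erase.2 ⟨huv, mem_univ _⟩, mem_filter.2 ⟨he1, hu, he2⟩⟩
    refine (card_le_card h1).trans (card_biUnion_le.trans ?_)
    refine (sum_le_sum fun u hu => hco u v (ne_of_mem_erase hu)).trans ?_
    rw [sum_const, smul_eq_mul]
    exact Nat.mul_le_mul_right _ (card_le_univ _)
  have hconf : ∀ e ∈ T, #(T.filter fun e' => ¬ Disjoint e e') < 3 * s * Fintype.card V := by
    intro e he
    have he3 := h3 e ((hmT e).1 he)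
    have hV : 0 < Fintype.card V := by
      obtain ⟨v, -⟩ := card_pos.1 (by omega : 0 < #e)
      exact Fintype.card_pos_iff.2 ⟨v⟩
    have h1 : T.filter (fun e' => ¬ Disjoint e e') ⊆ e.biUnion fun v =>
        T.filter fun e' => v ∈ e' := by
      intro e' he'
      obtain ⟨h4, h5⟩ := mem_filter.1 he'
      rw [not_disjoint_iff] at h5
      obtain ⟨v, hv, hv'⟩ := h5
      exact mem_biUnion.2 ⟨v, hv, mem_filter.2 ⟨h4, hv'⟩⟩
    have h2 : #(T.filter fun e' => ¬ Disjoint e e') ≤ 3 * (Fintype.card V * (s - 1)) := by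
      refine (card_le_card h1).trans (card_biUnion_le.trans ?_)
      refine (sum_le_sum fun v _ => hdeg v).trans ?_
      rw [sum_const, smul_eq_mul, he3]
    refine h2.trans_lt ?_
    obtain ⟨s', rfl⟩ : ∃ s', s = s' + 1 := ⟨s - 1, by omega⟩
    rw [Nat.add_sub_cancel]
    nlinarith
  obtain ⟨c, hc1, hc2⟩ := greedy (fun e e' : Finset V => ¬ Disjoint e e')
    (fun a b h h' => h h'.symm) (3 * s * Fintype.card V) T hconf
  refine ⟨fun i => {e | e ∈ H ∧ c e = i}, ?_, ?_⟩
  · intro i
    refine maltsev_matching _ (fun e he => h3 e he.1) ?_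
    intro e he e' he' hne
    by_contra hcon
    exact hc2 e ((hmT e).2 he.1) e' ((hmT e').2 he'.1) hne hcon (he.2.trans he'.2.symm)
  · ext e
    rw [Set.mem_iUnion]
    constructor
    · intro he
      exact ⟨⟨c e, hc1 e ((hmT e).2 he)⟩, he, rfl⟩
    · rintro ⟨i, he, -⟩
      exact he

/-- Cosets of subgroups of products of three groups are Maltsev pieces. -/
theorem maltsev_coset (G : Fin 3 → Type) [∀ i, Group (G i)] (K : Subgroup (∀ i, G i))
    (x : ∀ i, G i) (f : (Σ i, G i) → V) (hf : Function.Injective f) :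
    MaltsevPiece (edge f '' {y | x⁻¹ * y ∈ K}) := by
  refine ⟨G, fun _ a b c => a * b⁻¹ * c, f, {y | x⁻¹ * y ∈ K}, ?_, hf, ?_, rfl⟩
  · intro i a b
    simp
  · intro a ha b hb c hc
    have h1 : x⁻¹ * (a * b⁻¹ * c) = (x⁻¹ * a) * (x⁻¹ * b)⁻¹ * (x⁻¹ * c) := by group
    show x⁻¹ * (a * b⁻¹ * c) ∈ K
    rw [h1]
    exact K.mul_mem (K.mul_mem ha (K.inv_mem hb)) hc

theorem union_le {L : ℕ} [Fintype V] {H : Set (Finset V)}
    {F : Fin L → Set (Finset V)} (hH : H = ⋃ i, F i) {B : ℝ}
    (hF : ∀ i, ((F i).ncard : ℝ) ≤ B) : (H.ncard : ℝ) ≤ L * B := by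
  classical
  have h6 : H.ncard ≤ ∑ i : Fin L, (F i).ncard := by
    rw [hH]
    exact Set.ncard_iUnion_le_of_fintype F
  calc (H.ncard : ℝ) ≤ ((∑ i : Fin L, (F i).ncard : ℕ) : ℝ) := by exact_mod_cast h6
    _ = ∑ i : Fin L, ((F i).ncard : ℝ) := by push_cast; rfl
    _ ≤ ∑ _i : Fin L, B := sum_le_sum fun i _ => hF i
    _ = L * B := by rw [sum_const, card_univ, Fintype.card_fin, nsmul_eq_mul]

/-- The grid is a Maltsev piece. -/
theorem grid_maltsev (q : ℕ) : MaltsevPiece (grid 2 q) := by
  refine ⟨fun _ => Fin 2 → Fin q, fun _ a b c k => if a k = b k then c k else a k, id,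
    Set.range fun (p : Fin 3 → Fin q) i => i.removeNth p, ?_, Function.injective_id, ?_, ?_⟩
  · intro i a b
    refine ⟨?_, ?_⟩
    · funext k
      by_cases h : a k = b k
      · simp [h]
      · simp [h]
    · funext k; simp
  · rintro _ ⟨p, rfl⟩ _ ⟨p', rfl⟩ _ ⟨p'', rfl⟩
    exact ⟨fun j => if p j = p' j then p'' j else p j, rfl⟩
  · rw [grid, ← Set.range_comp]
    rfl

end Pool.Agent.Helper42.BES
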