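import Pool.Agent.R181.MajPieces

/-!
# The number of lines through `s` points of the three-dimensional grid, for small `s`
-/

set_option autoImplicit false
set_option maxRecDepth 100000

namespace Pool.Agent.Helper42.BES

open Finset Pool.Agent.R181.Maj Pool.Agent.R181.LW

/-- `cc n` is the minimum of `a + b` for `a * b ≥ n`. -/
def cc (n : ℕ) : ℕ := [0, 2, 3, 4, 4, 5, 5, 6, 6, 6, 7, 7, 7, 8, 8, 8, 8, 9, 9, 9, 9, 10].getD n 0

/-- The table of the minima of the sums of `cc` over the partitions of `t` into parts of size at most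
`M`. -/
def gtab : List (List ℕ) := [
  [0, 100, 100, 100, 100, 100, 100, 100, 100, 100, 100, 100, 100, 100, 100, 100, 100, 100, 100, 100, 100, 100],
  [0, 2, 4, 6, 8, 10, 12, 14, 16, 18, 20, 22, 24, 26, 28, 30, 32, 34, 36, 38, 40, 42],
  [0, 2, 3, 5, 6, 8, 9, 11, 12, 14, 15, 17, 18, 20, 21, 23, 24, 26, 27, 29, 30, 32],
  [0, 2, 3, 4, 6, 7, 8, 10, 11, 12, 14, 15, 16, 18, 19, 20, 22, 23, 24, 26, 27, 28],
  [0, 2, 3, 4, 4, 6, 7, 8, 8, 10, 11, 12, 12, 14, 15, 16, 16, 18, 19, 20, 20, 22],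
  [0, 2, 3, 4, 4, 5, 7, 8, 8, 9, 10, 12, 12, 13, 14, 15, 16, 17, 18, 19, 20, 21],
  [0, 2, 3, 4, 4, 5, 5, 7, 8, 9, 9, 10, 10, 12, 13, 14, 14, 15, 15, 17, 18, 19],
  [0, 2, 3, 4, 4, 5, 5, 6, 8, 9, 9, 10, 10, 11, 12, 14, 14, 15, 15, 16, 17, 18],
  [0, 2, 3, 4, 4, 5, 5, 6, 6, 8, 9, 10, 10, 11, 11, 12, 12, 14, 15, 16, 16, 17],
  [0, 2, 3, 4, 4, 5, 5, 6, 6, 6, 8, 9, 10, 10, 11, 11, 12, 12, 12, 14, 15, 16],
  [0, 2, 3, 4, 4, 5, 5, 6, 6, 6, 7, 9, 10, 10, 11, 11, 12, 12, 12, 13, 14, 16],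
  [0, 2, 3, 4, 4, 5, 5, 6, 6, 6, 7, 7, 9, 10, 11, 11, 12, 12, 12, 13, 13, 14],
  [0, 2, 3, 4, 4, 5, 5, 6, 6, 6, 7, 7, 7, 9, 10, 11, 11, 12, 12, 13, 13, 13],
  [0, 2, 3, 4, 4, 5, 5, 6, 6, 6, 7, 7, 7, 8, 10, 11, 11, 12, 12, 13, 13, 13],
  [0, 2, 3, 4, 4, 5, 5, 6, 6, 6, 7, 7, 7, 8, 8, 10, 11, 12, 12, 13, 13, 13],
  [0, 2, 3, 4, 4, 5, 5, 6, 6, 6, 7, 7, 7, 8, 8, 8, 10, 11, 12, 12, 13, 13],
  [0, 2, 3, 4, 4, 5, 5, 6, 6, 6, 7, 7, 7, 8, 8, 8, 8, 10, 11, 12, 12, 13],
  [0, 2, 3, 4, 4, 5, 5, 6, 6, 6, 7, 7, 7, 8, 8, 8, 8, 9, 11, 12, 12, 13],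
  [0, 2, 3, 4, 4, 5, 5, 6, 6, 6, 7, 7, 7, 8, 8, 8, 8, 9, 9, 11, 12, 13],
  [0, 2, 3, 4, 4, 5, 5, 6, 6, 6, 7, 7, 7, 8, 8, 8, 8, 9, 9, 9, 11, 12],
  [0, 2, 3, 4, 4, 5, 5, 6, 6, 6, 7, 7, 7, 8, 8, 8, 8, 9, 9, 9, 9, 11],
  [0, 2, 3, 4, 4, 5, 5, 6, 6, 6, 7, 7, 7, 8, 8, 8, 8, 9, 9, 9, 9, 10]]

/-- The entries of the table. -/
def gg (M t : ℕ) : ℕ := (gtab.getD M []).getD t 0

theorem gg_step : ∀ M < 22, ∀ n < M + 1, ∀ t < 22 - n, gg M (t + n) ≤ gg M t + cc n := by decide

theorem cc_le : ∀ n < 22, (cc n - 1) * (cc n - 1) < 4 * n ∨ n = 0 := by decide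

theorem cc_zero : cc 0 = 0 := rfl

theorem gg_zero : ∀ M < 22, gg M 0 = 0 := by decide

theorem gg_final : ∀ s < 22, (3 ≤ s ∧ s ≠ 18) → ∀ M < 22, 0 < M → s + 3 < M + gg M s := by decide

theorem cc_le_add {n a b : ℕ} (hn : n < 22) (h : n ≤ a * b) : cc n ≤ a + b := by
  rcases cc_le n hn with h1 | h1
  · by_contra hcon
    push Not at hcon
    have h2 : a + b ≤ cc n - 1 := by omega
    have h3 : (a + b) * (a + b) ≤ (cc n - 1) * (cc n - 1) := Nat.mul_le_mul h2 h2
    have h4 : 4 * (a * b) ≤ (a + b) * (a + b) := by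
      rcases Nat.le_total a b with h5 | h5
      · obtain ⟨c, rfl⟩ := Nat.exists_eq_add_of_le h5
        nlinarith
      · obtain ⟨c, rfl⟩ := Nat.exists_eq_add_of_le h5
        nlinarith
    omega
  · rw [h1, cc_zero]
    exact Nat.zero_le _

theorem slices {ι : Type*} [DecidableEq ι] (K : Finset ι) (n a b : ι → ℕ) (M : ℕ) (hM : M < 22)
    (hnM : ∀ k ∈ K, n k ≤ M) (hab : ∀ k ∈ K, n k ≤ a k * b k) (hs : ∑ k ∈ K, n k < 22) :
    gg M (∑ k ∈ K, n k) ≤ ∑ k ∈ K, (a k + b k) := by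
  induction K using Finset.induction_on with
  | empty =>
    rw [sum_empty, sum_empty, gg_zero M hM]
  | insert k K hk ih =>
    rw [sum_insert hk] at hs
    rw [sum_insert hk, sum_insert hk, add_comm (n k), add_comm (a k + b k)]
    have h1 := ih (fun l hl => hnM l (mem_insert_of_mem hl)) (fun l hl => hab l (mem_insert_of_mem hl))
      (by omega)
    have h2 := hnM k (mem_insert_self _ _)
    have h3 := gg_step M hM (n k) (by omega) (∑ l ∈ K, n l) (by omega)
    have h4 := cc_le_add (by omega) (hab k (mem_insert_self _ _))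
    omega

/-- `s` points of the grid are on more than `s + 3` lines, for `3 ≤ s ≤ 21`, `s ≠ 18`. -/
theorem lines_lower (q s : ℕ) (hs : 3 ≤ s) (hs' : s < 22) (h18 : s ≠ 18)
    (P : Finset (Fin 3 → Fin q)) (hP : #P = s) :
    s + 3 < ∑ i : Fin 3, #(P.image fun p => i.removeNth p) := by
  classical
  rw [Fin.sum_univ_three]
  have h0 : #(P.image fun p => (p 1, p 2)) ≤ #(P.image fun p => (0 : Fin 3).removeNth p) := by
    refine card_image_le_of_factor P _ _ fun x _ y _ h => ?_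
    rw [removeNth_eq (P := fun _ => Fin q) h 1 (by decide),
      removeNth_eq (P := fun _ => Fin q) h 2 (by decide)]
  have h1 : #(P.image fun p => (p 0, p 2)) ≤ #(P.image fun p => (1 : Fin 3).removeNth p) := by
    refine card_image_le_of_factor P _ _ fun x _ y _ h => ?_
    rw [removeNth_eq (P := fun _ => Fin q) h 0 (by decide),
      removeNth_eq (P := fun _ => Fin q) h 2 (by decide)]
  have h2 : #(P.image fun p => (p 0, p 1)) ≤ #(P.image fun p => (2 : Fin 3).removeNth p) := by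
    refine card_image_le_of_factor P _ _ fun x _ y _ h => ?_
    rw [removeNth_eq (P := fun _ => Fin q) h 0 (by decide),
      removeNth_eq (P := fun _ => Fin q) h 1 (by decide)]
  set M := #(P.image fun p => (p 0, p 1)) with hM
  let sl : Fin q → Finset (Fin 3 → Fin q) := fun k => P.filter fun p => p 2 = k
  have hfib : ∀ j : Fin 3, ∑ k : Fin q, #((sl k).image fun p => p j) ≤
      #(P.image fun p => (p j, p 2)) := by
    intro j
    rw [card_eq_sum_card_fiberwise (f := fun x : Fin q × Fin q => x.2) (t := univ)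
      (fun x _ => mem_coe.2 (mem_univ _))]
    refine sum_le_sum fun k _ => ?_
    have h3 : (sl k).image (fun p => p j) ⊆
        ((P.image fun p => (p j, p 2)).filter fun x => x.2 = k).image fun x => x.1 := by
      intro x hx
      obtain ⟨p, hp, rfl⟩ := mem_image.1 hx
      rw [mem_filter] at hp
      exact mem_image.2 ⟨(p j, p 2), mem_filter.2 ⟨mem_image_of_mem _ hp.1, hp.2⟩, rfl⟩
    exact (card_le_card h3).trans card_image_le
  have hsum : ∑ k : Fin q, #(sl k) = s := by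
    rw [← hP, card_eq_sum_card_fiberwise (f := fun p : Fin 3 → Fin q => p 2) (t := univ)
      (fun x _ => mem_coe.2 (mem_univ _))]
  have hext : ∀ x y : Fin 3 → Fin q, x 0 = y 0 → x 1 = y 1 → x 2 = y 2 → x = y := by
    intro x y e0 e1 e2
    funext i
    fin_cases i
    · exact e0
    · exact e1
    · exact e2
  have hnM : ∀ k ∈ (univ : Finset (Fin q)), #(sl k) ≤ M := by
    intro k _
    have h3 : #(sl k) = #((sl k).image fun p => (p 0, p 1)) := by
      refine (card_image_of_injOn ?_).symm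
      intro x hx y hy hxy
      rw [mem_coe, mem_filter] at hx hy
      exact hext x y (congrArg Prod.fst hxy) (congrArg Prod.snd hxy) (hx.2.trans hy.2.symm)
    rw [h3]
    exact card_le_card (image_subset_image (filter_subset _ _))
  have hab : ∀ k ∈ (univ : Finset (Fin q)), #(sl k) ≤
      #((sl k).image fun p => p 1) * #((sl k).image fun p => p 0) := by
    intro k _
    have h3 : #(sl k) = #((sl k).image fun p => (p 1, p 0)) := by
      refine (card_image_of_injOn ?_).symm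
      intro x hx y hy hxy
      rw [mem_coe, mem_filter] at hx hy
      exact hext x y (congrArg Prod.snd hxy) (congrArg Prod.fst hxy) (hx.2.trans hy.2.symm)
    rw [h3, ← card_product]
    refine card_le_card fun x hx => ?_
    obtain ⟨p, hp, rfl⟩ := mem_image.1 hx
    exact mem_product.2 ⟨mem_image_of_mem _ hp, mem_image_of_mem _ hp⟩
  have hMs : M ≤ s := by
    rw [← hP]
    exact card_image_le
  have hM0 : 0 < M := by
    refine card_pos.2 (Finset.Nonempty.image ?_ _)
    exact card_pos.1 (by omega)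
  have h4 := slices univ (fun k => #(sl k)) (fun k => #((sl k).image fun p => p 1))
    (fun k => #((sl k).image fun p => p 0)) M (by omega) hnM hab (by rw [hsum]; exact hs')
  rw [hsum, sum_add_distrib] at h4
  have h5 := gg_final s hs' ⟨hs, h18⟩ M (by omega) hM0
  have h6 := hfib 0
  have h7 := hfib 1
  omega

theorem grid_span_of (n q e d : ℕ) (hn : 1 ≤ n)
    (hd : ∀ P : Finset (Fin (n + 1) → Fin q), #P = e →
      d < ∑ i : Fin (n + 1), #(P.image fun p => i.removeNth p)) :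
    SpanMore (grid n q) e d := by
  classical
  intro T hT hTe
  set g : (Fin (n + 1) → Fin q) → Finset (GridV n q) := fun p =>
    edge (V := GridV n q) (X := fun _ => Fin n → Fin q) id fun i => i.removeNth p with hg
  have hginj : Function.Injective g :=
    (edge_injective Function.injective_id).comp (grid_point_injective n q hn)
  set P : Finset (Fin (n + 1) → Fin q) := univ.filter fun p => g p ∈ T with hP
  have hPT : P.image g = T := by
    ext a
    rw [mem_image]
    constructor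
    · rintro ⟨p, hp, rfl⟩
      exact (mem_filter.1 hp).2
    · intro ha
      obtain ⟨p, rfl⟩ := hT ha
      exact ⟨p, mem_filter.2 ⟨mem_univ _, ha⟩, rfl⟩
  have hPe : #P = e := by
    rw [← hTe, ← hPT, card_image_of_injective _ hginj]
  have h1 : T = (P.image fun p => fun i : Fin (n + 1) => i.removeNth p).image
      (edge (V := GridV n q) (X := fun _ => Fin n → Fin q) id) := by
    rw [image_image, ← hPT]
    rfl
  have h2 := union_eq (V := GridV n q) (X := fun _ => Fin n → Fin q) (f := id)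
    Function.injective_id (P.image fun p => fun i : Fin (n + 1) => i.removeNth p)
  rw [← h1] at h2
  rw [h2]
  have h3 : ∀ i : Fin (n + 1), (P.image fun p => fun i : Fin (n + 1) => i.removeNth p).image
      (fun x => x i) = P.image fun p => i.removeNth p := by
    intro i
    rw [image_image]
    rfl
  simp only [h3]
  exact hd P hPe

end Pool.Agent.Helper42.BES
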